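import Mathlib

namespace Pool.Agent.Lib_MP_11aa79_an

/-- convolution of functions on a group -/
noncomputable def conv {G : Type*} [Group G] (b c : G → ℂ) (x : G) : ℂ :=
  ∑' g, b g * c (g⁻¹ * x)

/-- the involution -/
noncomputable def adj {G : Type*} [Group G] (b : G → ℂ) (g : G) : ℂ :=
  (starRingEnd ℂ) (b g⁻¹)

section
variable {G : Type*} [Group G]

/-- shear equivalence `(g,h) ↦ (g, g*h)` -/
def shear (G : Type*) [Group G] : G × G ≃ G × G where
  toFun p := (p.1, p.1 * p.2)
  invFun p := (p.1, p.1⁻¹ * p.2)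
  left_inv p := by simp
  right_inv p := by simp

theorem summable_equiv {α β E : Type*} [AddCommMonoid E] [TopologicalSpace E] {f : β → E}
    (hf : Summable f) (e : α ≃ β) : Summable (fun v => f (e v)) := by
  have h := (Equiv.summable_iff e (f := f)).2 hf
  exact h

theorem summable_mulRight {E : Type*} [AddCommMonoid E] [TopologicalSpace E] {f : G → E}
    (hf : Summable f) (s : G) : Summable (fun v => f (v * s)) :=
  summable_equiv hf (Equiv.mulRight s)

theorem tsum_mulRight {E : Type*} [AddCommMonoid E] [TopologicalSpace E] (f : G → E) (s : G) :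
    ∑' v, f (v * s) = ∑' v, f v := (Equiv.mulRight s).tsum_eq f

theorem summable_mulLeft {E : Type*} [AddCommMonoid E] [TopologicalSpace E] {f : G → E}
    (hf : Summable f) (s : G) : Summable (fun v => f (s * v)) :=
  summable_equiv hf (Equiv.mulLeft s)

theorem summable_pair {b c : G → ℂ} (hb : Summable fun g => ‖b g‖)
    (hc : Summable fun g => ‖c g‖) :
    Summable fun p : G × G => ‖b p.1 * c (p.1⁻¹ * p.2)‖ := by
  have h : Summable fun p : G × G => ‖b p.1‖ * ‖c p.2‖ :=
    Summable.mul_of_nonneg hb hc (fun _ => norm_nonneg _) (fun _ => norm_nonneg _)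
  have h2 := (shear G).symm.summable_iff.2 h
  refine h2.congr ?_
  intro p
  simp [shear]

theorem summable_conv {b c : G → ℂ} (hb : Summable fun g => ‖b g‖)
    (hc : Summable fun g => ‖c g‖) : Summable fun x => ‖conv b c x‖ := by
  have h := summable_pair hb hc
  have h2 : Summable fun p : G × G => ‖b p.2 * c (p.2⁻¹ * p.1)‖ :=
    (Equiv.prodComm G G).summable_iff.2 h
  have h3 := h2.prod
  refine Summable.of_nonneg_of_le (fun _ => norm_nonneg _) (fun x => ?_) h3
  exact norm_tsum_le_tsum_norm (h2.prod_factor x)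

theorem tsum_conv {b c : G → ℂ} (hb : Summable fun g => ‖b g‖)
    (hc : Summable fun g => ‖c g‖) : ∑' x, conv b c x = (∑' g, b g) * ∑' g, c g := by
  have h := (summable_pair hb hc).of_norm
  have h2 : Summable fun p : G × G => b p.2 * c (p.2⁻¹ * p.1) :=
    (Equiv.prodComm G G).summable_iff.2 h
  have h3 : ∑' x, conv b c x = ∑' p : G × G, b p.2 * c (p.2⁻¹ * p.1) := by
    rw [h2.tsum_prod]; rfl
  rw [h3, tsum_mul_tsum_of_summable_norm hb hc]
  rw [← (Equiv.prodComm G G).tsum_eq (fun p : G × G => b p.2 * c (p.2⁻¹ * p.1))]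
  rw [← (shear G).tsum_eq]
  congr 1
  ext p
  simp [shear]

theorem adj_adj (b : G → ℂ) : adj (adj b) = b := by
  ext g; simp [adj]

theorem summable_adj {b : G → ℂ} (hb : Summable fun g => ‖b g‖) :
    Summable fun g => ‖adj b g‖ := by
  have h := (Equiv.inv G).summable_iff.2 hb
  refine h.congr ?_
  intro g; simp [adj]

theorem tsum_norm_adj (b : G → ℂ) : ∑' g, ‖adj b g‖ = ∑' g, ‖b g‖ := by
  rw [← (Equiv.inv G).tsum_eq (fun g => ‖b g‖)]
  congr 1; ext g; simp [adj]

theorem tsum_adj (b : G → ℂ) : ∑' g, adj b g = (starRingEnd ℂ) (∑' g, b g) := by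
  rw [Complex.conj_tsum, ← (Equiv.inv G).tsum_eq (fun g => (starRingEnd ℂ) (b g))]
  congr 1

theorem adj_conv (b c : G → ℂ) (x : G) : adj (conv b c) x = conv (adj c) (adj b) x := by
  unfold adj conv
  rw [Complex.conj_tsum]
  rw [← (Equiv.mulLeft x).tsum_eq
    (fun g => (starRingEnd ℂ) (c g⁻¹) * (starRingEnd ℂ) (b (g⁻¹ * x)⁻¹))]
  congr 1
  ext g
  simp [mul_comm]

end

end Pool.Agent.Lib_MP_11aa79_an
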