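import Mathlib

namespace Pool.Agent.Lib_MP_11aa79_an

open FreeGroup
open scoped Classical

/-- the group element of a letter -/
def lt (s : Fin 2 × Bool) : FreeGroup (Fin 2) := FreeGroup.mk [s]

/-- the opposite letter -/
def op (s : Fin 2 × Bool) : Fin 2 × Bool := (s.1, !s.2)

/-- `St s u` : the reduced word of `u` starts with the letter `s` -/
def St (s : Fin 2 × Bool) (u : FreeGroup (Fin 2)) : Prop := u.toWord.head? = some s

theorem op_op (s : Fin 2 × Bool) : op (op s) = s := by
  simp [op]

theorem op_ne (s : Fin 2 × Bool) : op s ≠ s := by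
  rcases s with ⟨i, b⟩
  cases b <;> simp [op]

theorem lt_inv (s : Fin 2 × Bool) : (lt s)⁻¹ = lt (op s) := by
  rcases s with ⟨i, b⟩
  simp [lt, op, FreeGroup.inv_mk, FreeGroup.invRev]

theorem lt_op (s : Fin 2 × Bool) : lt (op s) = (lt s)⁻¹ := (lt_inv s).symm

theorem St_one (s : Fin 2 × Bool) : ¬ St s 1 := by
  simp [St]

theorem toWord_lt (s : Fin 2 × Bool) : (lt s).toWord = [s] := by
  simp [lt]

theorem St_lt (s : Fin 2 × Bool) : St s (lt s) := by
  simp [St, toWord_lt]

theorem St_lt_iff (s t : Fin 2 × Bool) : St s (lt t) ↔ s = t := by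
  simp [St, toWord_lt, eq_comm]

theorem norm_lt (s : Fin 2 × Bool) : (lt s).norm = 1 := by
  simp [FreeGroup.norm, toWord_lt]

theorem lt_ne_one (s : Fin 2 × Bool) : lt s ≠ 1 := by
  intro h
  have := congrArg FreeGroup.norm h
  simp [norm_lt] at this

/-- toWord of `lt s * u` -/
theorem toWord_lt_mul (s : Fin 2 × Bool) (u : FreeGroup (Fin 2)) :
    (lt s * u).toWord = if St (op s) u then u.toWord.tail else s :: u.toWord := by
  have h1 : (lt s * u).toWord = FreeGroup.reduce (s :: u.toWord) := by
    rw [FreeGroup.toWord_mul, toWord_lt]; rfl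
  rw [h1, FreeGroup.reduce.cons, FreeGroup.reduce_toWord]
  cases hw : u.toWord with
  | nil => simp [St, hw]
  | cons t w =>
    have : St (op s) u ↔ (s.1 = t.1 ∧ s.2 = !t.2) := by
      simp only [St, hw, List.head?_cons, Option.some.injEq, op]
      rcases s with ⟨i, b⟩; rcases t with ⟨j, c⟩
      simp only [Prod.mk.injEq]
      constructor
      · rintro ⟨h1, h2⟩; refine ⟨h1.symm, ?_⟩; rw [h2]; simp
      · rintro ⟨h1, h2⟩; refine ⟨h1.symm, ?_⟩; rw [h2]; simp
    by_cases h : s.1 = t.1 ∧ s.2 = !t.2
    · rw [if_pos (this.2 h)]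
      simp [h.1, h.2]
    · rw [if_neg (fun hh => h (this.1 hh))]
      simp only [if_neg h]

/-- head of `(lt s)⁻¹ * u`. -/
theorem St_inv_mul (s : Fin 2 × Bool) (u : FreeGroup (Fin 2)) :
    St (op s) ((lt s)⁻¹ * u) ↔ ¬ St s u := by
  rw [lt_inv]
  by_cases h : St s u
  · simp only [h, not_true, iff_false]
    intro h2
    have h3 : (lt (op s) * u).toWord = u.toWord.tail := by
      rw [toWord_lt_mul, op_op, if_pos h]
    unfold St at h2 h
    rw [h3] at h2
    have hred := FreeGroup.isReduced_toWord (x := u)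
    cases hw : u.toWord with
    | nil => rw [hw] at h2; simp at h2
    | cons a w =>
      rw [hw] at h2 h hred
      cases w with
      | nil => simp at h2
      | cons b w' =>
        simp only [List.head?_cons, Option.some.injEq, List.tail_cons] at h h2
        subst h
        rw [FreeGroup.isReduced_cons_cons] at hred
        have := hred.1 
        rw [h2] at this
        simp [op] at this
  · simp only [h, not_false_eq_true, iff_true]
    have h3 : (lt (op s) * u).toWord = op s :: u.toWord := by
      rw [toWord_lt_mul, op_op, if_neg h]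
    simp [St, h3]

theorem norm_inv_mul_of_St {s : Fin 2 × Bool} {u : FreeGroup (Fin 2)} (h : St s u) :
    ((lt s)⁻¹ * u).norm + 1 = u.norm := by
  rw [lt_inv]
  have h3 : (lt (op s) * u).toWord = u.toWord.tail := by
    rw [toWord_lt_mul, op_op, if_pos h]
  unfold FreeGroup.norm
  rw [h3]
  unfold St at h
  cases hw : u.toWord with
  | nil => rw [hw] at h; simp at h
  | cons a w => simp

theorem norm_inv_mul_of_not_St {s : Fin 2 × Bool} {u : FreeGroup (Fin 2)} (h : ¬ St s u) :
    ((lt s)⁻¹ * u).norm = u.norm + 1 := by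
  rw [lt_inv]
  have h3 : (lt (op s) * u).toWord = op s :: u.toWord := by
    rw [toWord_lt_mul, op_op, if_neg h]
  unfold FreeGroup.norm
  rw [h3]; simp

theorem exists_St {u : FreeGroup (Fin 2)} (h : u ≠ 1) : ∃ s, St s u := by
  unfold St
  cases hw : u.toWord with
  | nil => exact absurd (FreeGroup.toWord_eq_nil_iff.1 hw) h
  | cons a w => exact ⟨a, rfl⟩

theorem St_unique {s t : Fin 2 × Bool} {u : FreeGroup (Fin 2)} (h : St s u) (h' : St t u) :
    s = t := by
  unfold St at h h'
  rw [h] at h'
  simpa using h'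

/-- Key lemma: either `u⁻¹` is entirely cancelled in `u * h`, or the head of `u` survives. -/
theorem key (w : List (Fin 2 × Bool)) : ∀ (u : FreeGroup (Fin 2)), u.toWord = w →
    ∀ h : FreeGroup (Fin 2), ((u * h).norm + u.norm = h.norm) ∨
      (u ≠ 1 ∧ ∀ s, St s (u * h) ↔ St s u) := by
  induction w with
  | nil =>
    intro u hu h
    have : u = 1 := FreeGroup.toWord_eq_nil_iff.1 hu
    subst this
    left; simp
  | cons a w ih =>
    intro u hu h
    -- u = lt a * v with v.toWord = w
    have hSt : St a u := by simp [St, hu]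
    set v := (lt a)⁻¹ * u with hv
    have huv : u = lt a * v := by rw [hv]; group
    have hvw : v.toWord = w := by
      rw [hv, lt_inv, toWord_lt_mul, op_op, if_pos hSt, hu]; rfl
    have hvnot : ¬ St (op a) v := by
      rw [hv, St_inv_mul]; simpa using hSt
    have hu1 : u ≠ 1 := by
      intro h1; rw [h1] at hu; simp at hu
    have hnu : v.norm + 1 = u.norm := norm_inv_mul_of_St hSt
    have huh : u * h = lt a * (v * h) := by rw [huv, mul_assoc]
    have hvh : v * h = (lt a)⁻¹ * (u * h) := by rw [huh]; group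
    by_cases hc : St a (u * h)
    · right
      refine ⟨hu1, fun s => ?_⟩
      constructor
      · intro hs; rw [St_unique hs hc]; exact hSt
      · intro hs; rw [St_unique hs hSt]; exact hc
    · -- then `v * h` starts with `op a`
      left
      have h4 : St (op a) (v * h) := by
        rw [hvh, St_inv_mul]; exact hc
      have h5 : (v * h).norm = (u * h).norm + 1 := by
        rw [hvh]; exact norm_inv_mul_of_not_St hc
      rcases ih v hvw h with h6 | ⟨h6, h7⟩
      · omega
      · exact absurd ((h7 _).1 h4) hvnot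

theorem key' (u h : FreeGroup (Fin 2)) : ((u * h).norm + u.norm = h.norm) ∨
      (u ≠ 1 ∧ ∀ s, St s (u * h) ↔ St s u) := key u.toWord u rfl h

/-- multiplying by a letter on the right does not change the head, unless trivial -/
theorem St_mul_lt {u : FreeGroup (Fin 2)} (s t : Fin 2 × Bool) (h1 : u ≠ 1)
    (h2 : u * lt s ≠ 1) : St t (u * lt s) ↔ St t u := by
  rcases key' u (lt s) with h | ⟨_, h⟩
  · exfalso
    rw [norm_lt] at h
    have h3 : u.norm ≠ 0 := fun hh => h1 (FreeGroup.norm_eq_zero.1 hh)
    have h4 : (u * lt s).norm ≠ 0 := fun hh => h2 (FreeGroup.norm_eq_zero.1 hh)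
    omega
  · exact h t

/-- if lengths add then words concatenate -/
theorem toWord_mul_of_norm {g k : FreeGroup (Fin 2)} (h : (g * k).norm = g.norm + k.norm) :
    (g * k).toWord = g.toWord ++ k.toWord := by
  have h1 := FreeGroup.toWord_mul_sublist g k
  apply List.Sublist.eq_of_length h1
  unfold FreeGroup.norm at h
  rw [h, List.length_append]

/-- the initial segment of given length is unique -/
theorem init_unique {g g' h : FreeGroup (Fin 2)} (h1 : h.norm = g.norm + (g⁻¹ * h).norm)
    (h2 : h.norm = g'.norm + (g'⁻¹ * h).norm) (h3 : g.norm = g'.norm) : g = g' := by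
  have e1 : g * (g⁻¹ * h) = h := by group
  have e2 : g' * (g'⁻¹ * h) = h := by group
  have f1 := toWord_mul_of_norm (g := g) (k := g⁻¹ * h) (by rw [e1]; exact h1)
  have f2 := toWord_mul_of_norm (g := g') (k := g'⁻¹ * h) (by rw [e2]; exact h2)
  rw [e1] at f1
  rw [e2] at f2
  rw [f1] at f2
  have := List.append_inj_left f2 h3
  exact FreeGroup.toWord_injective this

/-- finiteness of balls -/
theorem finite_ball (n : ℕ) : {g : FreeGroup (Fin 2) | g.norm ≤ n}.Finite := by
  have h1 : {l : List (Fin 2 × Bool) | l.length ≤ n}.Finite := List.finite_length_le _ n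
  have h2 : {g : FreeGroup (Fin 2) | g.norm ≤ n} =
      FreeGroup.toWord ⁻¹' {l : List (Fin 2 × Bool) | l.length ≤ n} := rfl
  rw [h2]
  exact h1.preimage FreeGroup.toWord_injective.injOn

end Pool.Agent.Lib_MP_11aa79_an
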