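import Mathlib
import Pool.Agent.Lib_MP_11aa79_an.Words
import Pool.Agent.Lib_MP_11aa79_an.Conv

namespace Pool.Agent.Lib_MP_11aa79_an

open FreeGroup
open scoped Classical

/-- indicator of `St`. -/
noncomputable def ind (t : Fin 2 × Bool) (u : FreeGroup (Fin 2)) : ℂ := if St t u then 1 else 0

theorem norm_ind_le (t : Fin 2 × Bool) (u : FreeGroup (Fin 2)) : ‖ind t u‖ ≤ 1 := by
  unfold ind; split_ifs <;> simp

/-- Fox type derivative -/
noncomputable def D (t : Fin 2 × Bool) (c : FreeGroup (Fin 2) → ℂ) (g : FreeGroup (Fin 2)) : ℂ :=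
  ∑' h, ind t (g⁻¹ * h) * c h

/-- the kernel -/
noncomputable def chi (t : Fin 2 × Bool) (g h : FreeGroup (Fin 2)) : ℂ :=
  ind t (g⁻¹ * h) - ind t g⁻¹

theorem norm_chi_le (t : Fin 2 × Bool) (g h : FreeGroup (Fin 2)) : ‖chi t g h‖ ≤ 1 := by
  unfold chi ind; split_ifs <;> simp

theorem summable_ind_mul (t : Fin 2 × Bool) {c : FreeGroup (Fin 2) → ℂ}
    (hc : Summable fun g => ‖c g‖) (f : FreeGroup (Fin 2) → FreeGroup (Fin 2)) :
    Summable fun h => ‖ind t (f h) * c h‖ := by
  refine Summable.of_nonneg_of_le (fun _ => norm_nonneg _) (fun h => ?_) hc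
  rw [norm_mul]
  calc ‖ind t (f h)‖ * ‖c h‖ ≤ 1 * ‖c h‖ := by
        gcongr; exact norm_ind_le _ _
    _ = ‖c h‖ := one_mul _

theorem summable_chi_mul (t : Fin 2 × Bool) {c : FreeGroup (Fin 2) → ℂ}
    (hc : Summable fun g => ‖c g‖) (g : FreeGroup (Fin 2)) :
    Summable fun h => ‖chi t g h * c h‖ := by
  refine Summable.of_nonneg_of_le (fun _ => norm_nonneg _) (fun h => ?_) hc
  rw [norm_mul]
  calc ‖chi t g h‖ * ‖c h‖ ≤ 1 * ‖c h‖ := by
        gcongr; exact norm_chi_le _ _ _
    _ = ‖c h‖ := one_mul _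

theorem norm_D_le (t : Fin 2 × Bool) {c : FreeGroup (Fin 2) → ℂ}
    (hc : Summable fun g => ‖c g‖) (g : FreeGroup (Fin 2)) : ‖D t c g‖ ≤ ∑' h, ‖c h‖ := by
  unfold D
  have h1 := summable_ind_mul t hc (fun h => g⁻¹ * h)
  refine (norm_tsum_le_tsum_norm h1).trans ?_
  refine h1.tsum_le_tsum (fun h => ?_) hc
  rw [norm_mul]
  calc ‖ind t (g⁻¹ * h)‖ * ‖c h‖ ≤ 1 * ‖c h‖ := by
        gcongr; exact norm_ind_le _ _
    _ = ‖c h‖ := one_mul _

/-- derivative of a convolution -/
theorem D_conv (t : Fin 2 × Bool) {b c : FreeGroup (Fin 2) → ℂ} (hb : Summable fun g => ‖b g‖)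
    (hc : Summable fun g => ‖c g‖) (g : FreeGroup (Fin 2)) :
    D t (conv b c) g = conv b (D t c) g := by
  unfold D conv
  have hs : Summable fun p : FreeGroup (Fin 2) × FreeGroup (Fin 2) =>
      ind t (g⁻¹ * p.2) * (b p.1 * c (p.1⁻¹ * p.2)) := by
    refine Summable.of_norm ?_
    refine Summable.of_nonneg_of_le (fun _ => norm_nonneg _) (fun p => ?_) (summable_pair hb hc)
    rw [norm_mul]
    calc ‖ind t (g⁻¹ * p.2)‖ * ‖b p.1 * c (p.1⁻¹ * p.2)‖ ≤ 1 * ‖b p.1 * c (p.1⁻¹ * p.2)‖ := by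
          gcongr; exact norm_ind_le _ _
      _ = _ := one_mul _
  have e1 : ∑' h, ind t (g⁻¹ * h) * ∑' k, b k * c (k⁻¹ * h) =
      ∑' h, ∑' k, ind t (g⁻¹ * h) * (b k * c (k⁻¹ * h)) := by
    congr 1; ext h; rw [tsum_mul_left]
  have e2 : ∑' k, b k * ∑' h, ind t ((k⁻¹ * g)⁻¹ * h) * c h =
      ∑' k, ∑' h, ind t (g⁻¹ * h) * (b k * c (k⁻¹ * h)) := by
    congr 1; ext k
    rw [← tsum_mul_left, ← (Equiv.mulLeft k).tsum_eq
      (fun h => ind t (g⁻¹ * h) * (b k * c (k⁻¹ * h)))]
    congr 1; ext h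
    simp only [Equiv.coe_mulLeft, mul_inv_rev, inv_inv, inv_mul_cancel_left, mul_assoc]
    ring
  rw [e1, e2]
  exact (hs.tsum_comm' (fun k => hs.prod_factor k)
    (fun h => (((Equiv.prodComm _ _).summable_iff.2 hs).prod_factor h)))

/-- derivative via the kernel, for zero sum -/
theorem D_eq_chi (t : Fin 2 × Bool) {c : FreeGroup (Fin 2) → ℂ}
    (hc : Summable fun g => ‖c g‖) (h0 : ∑' g, c g = 0) (g : FreeGroup (Fin 2)) :
    D t c g = ∑' h, chi t g h * c h := by
  unfold D chi
  have h1 := (summable_ind_mul t hc (fun h => g⁻¹ * h)).of_norm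
  have h2 : Summable fun h => ind t g⁻¹ * c h := hc.of_norm.mul_left _
  have e : ∀ h, (ind t (g⁻¹ * h) - ind t g⁻¹) * c h =
      ind t (g⁻¹ * h) * c h - ind t g⁻¹ * c h := fun h => by ring
  simp_rw [e]
  rw [h1.tsum_sub h2, tsum_mul_left, h0]
  simp

/-- symmetry -/
theorem D_mul_inv (t : Fin 2 × Bool) {c : FreeGroup (Fin 2) → ℂ}
    (hc : Summable fun g => ‖c g‖) (h0 : ∑' g, c g = 0) (g : FreeGroup (Fin 2)) :
    D t c (g * (lt t)⁻¹) = - D (op t) c g := by
  unfold D
  have h1 := (summable_ind_mul (op t) hc (fun h => g⁻¹ * h)).of_norm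
  have e : ∀ h, ind t ((g * (lt t)⁻¹)⁻¹ * h) * c h = c h - ind (op t) (g⁻¹ * h) * c h := by
    intro h
    have h3 : g⁻¹ * h = (lt t)⁻¹ * ((g * (lt t)⁻¹)⁻¹ * h) := by group
    have h4 := St_inv_mul t ((g * (lt t)⁻¹)⁻¹ * h)
    rw [← h3] at h4
    unfold ind
    by_cases h5 : St t ((g * (lt t)⁻¹)⁻¹ * h)
    · rw [if_pos h5, if_neg (fun hh => h4.1 hh h5)]; ring
    · rw [if_neg h5, if_pos (h4.2 h5)]; ring
  simp_rw [e]
  rw [hc.of_norm.tsum_sub h1, h0]
  simp

theorem letters_sum (X Y : Fin 2 × Bool) (hX : X.1 = 0) (hY : Y.1 = 1)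
    (u : FreeGroup (Fin 2)) :
    ind X u + ind (op X) u + ind Y u + ind (op Y) u = if u = 1 then 0 else 1 := by
  by_cases hu : u = 1
  · subst hu
    simp [ind, St_one]
  · rw [if_neg hu]
    obtain ⟨s, hs⟩ := exists_St hu
    have key : ∀ r, ind r u = if r = s then 1 else 0 := by
      intro r
      unfold ind
      by_cases h : r = s
      · rw [if_pos h, if_pos (h ▸ hs)]
      · rw [if_neg h, if_neg (fun hh => h (St_unique hh hs))]
    rw [key, key, key, key]
    rcases X with ⟨x, a⟩; rcases Y with ⟨y, b⟩; rcases s with ⟨i, e⟩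
    simp only at hX hY
    subst hX hY
    fin_cases i <;> cases a <;> cases b <;> cases e <;> simp [op]

/-- fundamental formula -/
theorem fund (X Y : Fin 2 × Bool) (hX : X.1 = 0) (hY : Y.1 = 1) {c : FreeGroup (Fin 2) → ℂ}
    (hc : Summable fun g => ‖c g‖) (h0 : ∑' g, c g = 0) (v : FreeGroup (Fin 2)) :
    c v = (D X c (v * (lt X)⁻¹) - D X c v) + (D Y c (v * (lt Y)⁻¹) - D Y c v) := by
  rw [D_mul_inv X hc h0, D_mul_inv Y hc h0]
  have s1 := (summable_ind_mul X hc (fun h => v⁻¹ * h)).of_norm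
  have s2 := (summable_ind_mul (op X) hc (fun h => v⁻¹ * h)).of_norm
  have s3 := (summable_ind_mul Y hc (fun h => v⁻¹ * h)).of_norm
  have s4 := (summable_ind_mul (op Y) hc (fun h => v⁻¹ * h)).of_norm
  have e : D X c v + D (op X) c v + D Y c v + D (op Y) c v = - c v := by
    unfold D
    rw [← s1.tsum_add s2, ← (s1.add s2).tsum_add s3, ← ((s1.add s2).add s3).tsum_add s4]
    have e1 : ∀ h, ind X (v⁻¹ * h) * c h + ind (op X) (v⁻¹ * h) * c h + ind Y (v⁻¹ * h) * c h +
        ind (op Y) (v⁻¹ * h) * c h = c h - (if h = v then c v else 0) := by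
      intro h
      rw [← add_mul, ← add_mul, ← add_mul, letters_sum X Y hX hY]
      by_cases hh : h = v
      · subst hh; simp
      · have : ¬ (v⁻¹ * h = 1) := by
          intro h2; apply hh
          have := inv_mul_eq_one.1 h2
          exact this.symm
        rw [if_neg this, if_neg hh]; ring
    simp_rw [e1]
    have hs : HasSum (fun h => if h = v then c v else 0) (c v) := hasSum_ite_eq v (c v)
    rw [hc.of_norm.tsum_sub hs.summable, h0, hs.tsum_eq]
    ring
  linear_combination e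

/-- the special element -/
noncomputable def aa (X Y : Fin 2 × Bool) (l : ℂ) (g : FreeGroup (Fin 2)) : ℂ :=
  if g = lt X then 1 else if g = lt Y then l else if g = 1 then -(1 + l) else 0

theorem lt_inj {X Y : Fin 2 × Bool} (h : lt X = lt Y) : X = Y := by
  have := congrArg FreeGroup.toWord h
  rw [toWord_lt, toWord_lt] at this
  simpa using this

theorem tsum_aa (X Y : Fin 2 × Bool) (hXY : X ≠ Y) (l : ℂ) (F : FreeGroup (Fin 2) → ℂ) :
    HasSum (fun g => F g * aa X Y l g) (F (lt X) + F (lt Y) * l - F 1 * (1 + l)) := by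
  have h1 : lt X ≠ lt Y := fun h => hXY (lt_inj h)
  have hx : lt X ≠ 1 := lt_ne_one X
  have hy : lt Y ≠ 1 := lt_ne_one Y
  have s1 : HasSum (fun g => if g = lt X then F (lt X) else 0) (F (lt X)) := hasSum_ite_eq _ _
  have s2 : HasSum (fun g => if g = lt Y then F (lt Y) * l else 0) (F (lt Y) * l) :=
    hasSum_ite_eq _ _
  have s3 : HasSum (fun g : FreeGroup (Fin 2) => if g = 1 then F 1 * (1 + l) else 0)
    (F 1 * (1 + l)) := hasSum_ite_eq _ _
  have hs := (s1.add s2).sub s3
  have hfun : (fun g => F g * aa X Y l g) = fun g : FreeGroup (Fin 2) =>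
      (if g = lt X then F (lt X) else 0) + (if g = lt Y then F (lt Y) * l else 0) -
        (if g = 1 then F 1 * (1 + l) else 0) := by
    ext g
    unfold aa
    by_cases e1 : g = lt X
    · subst e1
      simp [h1, hx]
    · by_cases e2 : g = lt Y
      · subst e2
        simp [h1.symm, hy]
      · by_cases e3 : g = 1
        · subst e3
          simp [hx.symm, hy.symm]
          ring
        · simp [e1, e2, e3]
  rw [hfun]; exact hs

theorem D_aa (X Y : Fin 2 × Bool) (hX : X.1 = 0) (hY : Y.1 = 1) (l : ℂ)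
    (g : FreeGroup (Fin 2)) :
    D X (aa X Y l) g = (if g = 1 then 1 else 0) ∧ D Y (aa X Y l) g = (if g = 1 then l else 0) := by
  have hXY : X ≠ Y := by
    intro h; rw [h, hY] at hX; exact absurd hX (by decide)
  have hXoY : X ≠ op Y := by
    intro h; rw [h] at hX; simp [op, hY] at hX
  have hYoX : Y ≠ op X := by
    intro h; rw [h] at hY; simp [op, hX] at hY
  have main : ∀ t, (t = X ∨ t = Y) → D t (aa X Y l) g =
      if g = 1 then (ind t (lt X) + ind t (lt Y) * l) else 0 := by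
    intro t ht
    unfold D
    rw [(tsum_aa X Y hXY l (fun h => ind t (g⁻¹ * h))).tsum_eq]
    simp only [mul_one]
    have htX : t ≠ op X := by
      rcases ht with h | h
      · rw [h]; exact (op_ne X).symm
      · rw [h]; exact hYoX
    have htY : t ≠ op Y := by
      rcases ht with h | h
      · rw [h]; exact hXoY
      · rw [h]; exact (op_ne Y).symm
    -- comparing heads
    have cmp : ∀ s, t ≠ op s → g ≠ 1 → ind t (g⁻¹ * lt s) = ind t g⁻¹ := by
      intro s hts hg
      by_cases h2 : g⁻¹ * lt s = 1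
      · have h3 : g = lt s := by
          have := inv_mul_eq_one.1 h2
          exact this
        subst h3
        have h4 : ¬ St t (lt s)⁻¹ := by
          rw [lt_inv, St_lt_iff]; exact hts
        unfold ind
        rw [if_neg h4, if_neg (by rw [h2]; exact St_one t)]
      · unfold ind
        have := St_mul_lt (u := g⁻¹) s t (by simpa using hg) h2
        simp only [this]
    by_cases hg : g = 1
    · subst hg
      simp [ind, St_one]
    · rw [if_neg hg, cmp X htX hg, cmp Y htY hg]; ring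
  constructor
  · rw [main X (Or.inl rfl)]
    by_cases hg : g = 1
    · rw [if_pos hg, if_pos hg]
      have h1 : ¬ St X (lt Y) := by rw [St_lt_iff]; exact hXY
      simp [ind, St_lt, h1]
    · rw [if_neg hg, if_neg hg]
  · rw [main Y (Or.inr rfl)]
    by_cases hg : g = 1
    · rw [if_pos hg, if_pos hg]
      have h1 : ¬ St Y (lt X) := by rw [St_lt_iff]; exact hXY.symm
      simp [ind, St_lt, h1]
    · rw [if_neg hg, if_neg hg]

/-- sphere sums of the derivative are bounded -/
theorem sphere_sum (t : Fin 2 × Bool) {c : FreeGroup (Fin 2) → ℂ}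
    (hc : Summable fun g => ‖c g‖) (h0 : ∑' g, c g = 0) (n : ℕ)
    (S : Finset (FreeGroup (Fin 2))) (hS : ∀ g ∈ S, g.norm = n) :
    ∑ g ∈ S, ‖D t c g‖ ≤ ∑' h, ‖c h‖ := by
  have s : ∀ g, Summable fun h => ‖chi t g h * c h‖ := fun g => summable_chi_mul t hc g
  calc ∑ g ∈ S, ‖D t c g‖ ≤ ∑ g ∈ S, ∑' h, ‖chi t g h * c h‖ := by
        refine Finset.sum_le_sum (fun g _ => ?_)
        rw [D_eq_chi t hc h0]
        exact norm_tsum_le_tsum_norm (s g)
    _ = ∑' h, ∑ g ∈ S, ‖chi t g h * c h‖ := by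
        rw [Summable.tsum_finsetSum (fun g _ => s g)]
    _ ≤ ∑' h, ‖c h‖ := by
        refine (summable_sum (fun g _ => s g)).tsum_le_tsum (fun h => ?_) hc
        have e : ∀ g ∈ S, ‖chi t g h * c h‖ = ‖chi t g h‖ * ‖c h‖ := fun g _ => norm_mul _ _
        rw [Finset.sum_congr rfl e, ← Finset.sum_mul]
        have h1 : ∑ g ∈ S, ‖chi t g h‖ ≤ 1 := by
          -- at most one nonzero term
          have nz : ∀ g, chi t g h ≠ 0 → h.norm = g.norm + (g⁻¹ * h).norm := by
            intro g hg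
            rcases key' g⁻¹ h with h2 | ⟨_, h2⟩
            · rw [FreeGroup.norm_inv_eq] at h2; omega
            · exfalso; apply hg
              unfold chi ind
              simp [h2 t]
          by_cases hex : ∃ g ∈ S, chi t g h ≠ 0
          · obtain ⟨g0, hg0, hne⟩ := hex
            rw [Finset.sum_eq_single_of_mem g0 hg0]
            · exact norm_chi_le _ _ _
            · intro g hg hgne
              by_contra h3
              have h4 : chi t g h ≠ 0 := by
                intro h5; rw [h5] at h3; simp at h3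
              exact hgne (init_unique (nz g h4) (nz g0 hne) (by rw [hS g hg, hS g0 hg0]))
          · push Not at hex
            rw [Finset.sum_eq_zero (fun g hg => by rw [hex g hg]; simp)]
            norm_num
        calc (∑ g ∈ S, ‖chi t g h‖) * ‖c h‖ ≤ 1 * ‖c h‖ := by gcongr
          _ = ‖c h‖ := one_mul _

end Pool.Agent.Lib_MP_11aa79_an
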