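import Mathlib
import Pool.Agent.Lib_MP_11aa79_an.Fox

namespace Pool.Agent.Lib_MP_11aa79_an

open FreeGroup Filter Topology

section
variable {H : Type*} [NormedAddCommGroup H] [InnerProductSpace ℂ H] [CompleteSpace H]

/-- unitary as a continuous linear map -/
noncomputable def uc (U : H ≃ₗᵢ[ℂ] H) : H →L[ℂ] H :=
  U.toLinearIsometry.toContinuousLinearMap

omit [CompleteSpace H] in
@[simp] theorem uc_apply (U : H ≃ₗᵢ[ℂ] H) (x : H) : uc U x = U x := rfl

omit [CompleteSpace H] in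
theorem uc_mul (U V : H ≃ₗᵢ[ℂ] H) : uc (U * V) = uc U * uc V := by
  ext x; rfl

omit [CompleteSpace H] in
theorem uc_one : uc (1 : H ≃ₗᵢ[ℂ] H) = 1 := by
  ext x; rfl

omit [CompleteSpace H] in
theorem norm_uc_le (U : H ≃ₗᵢ[ℂ] H) : ‖uc U‖ ≤ 1 := by
  refine ContinuousLinearMap.opNorm_le_bound _ zero_le_one (fun x => ?_)
  simp

omit [CompleteSpace H] in
theorem inner_uc_left (U : H ≃ₗᵢ[ℂ] H) (x y : H) :
    inner ℂ (U x) y = inner ℂ x (U⁻¹ y) := by
  have h : y = U (U⁻¹ y) := by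
    have : U (U⁻¹ y) = (U * U⁻¹) y := rfl
    rw [this, mul_inv_cancel]; rfl
  conv_lhs => rw [h]
  exact LinearIsometryEquiv.inner_map_map U _ _

variable {G : Type*} [Group G]

theorem summable_rep (π : G →* (H ≃ₗᵢ[ℂ] H)) {b : G → ℂ} (hb : Summable fun g => ‖b g‖) :
    Summable fun g => b g • uc (π g) := by
  refine Summable.of_norm ?_
  refine Summable.of_nonneg_of_le (fun _ => norm_nonneg _) (fun g => ?_) hb
  rw [norm_smul]
  calc ‖b g‖ * ‖uc (π g)‖ ≤ ‖b g‖ * 1 := by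
        gcongr; exact norm_uc_le _
    _ = ‖b g‖ := mul_one _

/-- integrated form of a unitary representation -/
noncomputable def rep (π : G →* (H ≃ₗᵢ[ℂ] H)) (b : G → ℂ) : H →L[ℂ] H :=
  ∑' g, b g • uc (π g)

theorem hasSum_rep_apply (π : G →* (H ≃ₗᵢ[ℂ] H)) {b : G → ℂ} (hb : Summable fun g => ‖b g‖)
    (x : H) : HasSum (fun g => b g • π g x) (rep π b x) := by
  have h := (summable_rep π hb).hasSum
  have h2 := h.mapL (ContinuousLinearMap.apply ℂ H x)
  exact h2

theorem norm_rep_le (π : G →* (H ≃ₗᵢ[ℂ] H)) {b : G → ℂ} (hb : Summable fun g => ‖b g‖) :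
    ‖rep π b‖ ≤ ∑' g, ‖b g‖ := by
  unfold rep
  refine tsum_of_norm_bounded hb.hasSum (fun g => ?_)
  rw [norm_smul]
  calc ‖b g‖ * ‖uc (π g)‖ ≤ ‖b g‖ * 1 := by
        gcongr; exact norm_uc_le _
    _ = ‖b g‖ := mul_one _

theorem norm_rep_apply_le (π : G →* (H ≃ₗᵢ[ℂ] H)) {b : G → ℂ} (hb : Summable fun g => ‖b g‖)
    (x : H) : ‖rep π b x‖ ≤ (∑' g, ‖b g‖) * ‖x‖ :=
  ((rep π b).le_opNorm x).trans (by gcongr; exact norm_rep_le π hb)

theorem rep_conv (π : G →* (H ≃ₗᵢ[ℂ] H)) {b c : G → ℂ} (hb : Summable fun g => ‖b g‖)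
    (hc : Summable fun g => ‖c g‖) : rep π (conv b c) = rep π b * rep π c := by
  have sb := summable_rep π hb
  have sc := summable_rep π hc
  have nb : Summable fun g => ‖b g • uc (π g)‖ := by
    refine Summable.of_nonneg_of_le (fun _ => norm_nonneg _) (fun g => ?_) hb
    rw [norm_smul]
    calc ‖b g‖ * ‖uc (π g)‖ ≤ ‖b g‖ * 1 := by
          gcongr; exact norm_uc_le _
      _ = ‖b g‖ := mul_one _
  have nc : Summable fun g => ‖c g • uc (π g)‖ := by
    refine Summable.of_nonneg_of_le (fun _ => norm_nonneg _) (fun g => ?_) hc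
    rw [norm_smul]
    calc ‖c g‖ * ‖uc (π g)‖ ≤ ‖c g‖ * 1 := by
          gcongr; exact norm_uc_le _
      _ = ‖c g‖ := mul_one _
  have e1 : rep π b * rep π c =
      ∑' p : G × G, (b p.1 • uc (π p.1)) * (c p.2 • uc (π p.2)) := by
    unfold rep
    exact tsum_mul_tsum_of_summable_norm nb nc
  have e2 : ∑' p : G × G, (b p.1 • uc (π p.1)) * (c p.2 • uc (π p.2)) =
      ∑' p : G × G, (b p.2 * c (p.2⁻¹ * p.1)) • uc (π p.1) := by
    rw [← ((shear G).trans (Equiv.prodComm G G)).tsum_eq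
      (fun p : G × G => (b p.2 * c (p.2⁻¹ * p.1)) • uc (π p.1))]
    congr 1
    ext p : 1
    simp only [Equiv.trans_apply, shear, Equiv.coe_fn_mk, Equiv.prodComm_apply, Prod.swap_prod_mk,
      inv_mul_cancel_left]
    rw [smul_mul_smul_comm, π.map_mul, uc_mul]
  have hs : Summable fun p : G × G => (b p.2 * c (p.2⁻¹ * p.1)) • uc (π p.1) := by
    have h1 : Summable fun p : G × G => ‖b p.2 * c (p.2⁻¹ * p.1)‖ :=
      summable_equiv (summable_pair hb hc) (Equiv.prodComm G G)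
    refine Summable.of_norm ?_
    refine Summable.of_nonneg_of_le (fun _ => norm_nonneg _) (fun p => ?_) h1
    rw [norm_smul]
    calc ‖b p.2 * c (p.2⁻¹ * p.1)‖ * ‖uc (π p.1)‖ ≤ ‖b p.2 * c (p.2⁻¹ * p.1)‖ * 1 := by
          gcongr; exact norm_uc_le _
      _ = _ := mul_one _
  rw [e1, e2, hs.tsum_prod]
  unfold rep conv
  congr 1
  ext x : 1
  have h2 : Summable fun p : G × G => b p.2 * c (p.2⁻¹ * p.1) :=
    (summable_equiv (summable_pair hb hc) (Equiv.prodComm G G)).of_norm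
  exact ((h2.prod_factor x).tsum_smul_const (uc (π x))).symm

theorem inner_rep_left (π : G →* (H ≃ₗᵢ[ℂ] H)) {b : G → ℂ} (hb : Summable fun g => ‖b g‖)
    (x y : H) : inner ℂ (rep π b x) y = inner ℂ x (rep π (adj b) y) := by
  have h1 := hasSum_rep_apply π hb x
  have h2 := hasSum_rep_apply π (summable_adj hb) y
  have h3 : HasSum (fun g => inner ℂ x (adj b g • π g y)) (inner ℂ x (rep π (adj b) y)) :=
    h2.mapL (innerSL ℂ x)
  have h4 : HasSum (fun g => inner ℂ y (b g • π g x)) (inner ℂ y (rep π b x)) :=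
    h1.mapL (innerSL ℂ y)
  have h5 := Complex.hasSum_conj'.2 h4
  rw [inner_conj_symm] at h5
  have h6 := (Equiv.inv G).hasSum_iff.2 h5
  refine h6.unique ?_
  refine h3.congr_fun ?_ 
  intro g
  simp only [Function.comp, Equiv.inv_apply, inner_conj_symm]
  rw [inner_smul_left, inner_smul_right, inner_uc_left, π.map_inv, inv_inv]
  rfl

end

end Pool.Agent.Lib_MP_11aa79_an
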