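import Mathlib
import Pool.Agent.Lib_MP_11aa79_an.Rep

namespace Pool.Agent.Lib_MP_11aa79_an

open FreeGroup Filter Topology
open scoped Classical

/-- the Hilbert space of square summable families -/
abbrev L2 (ι : Type*) : Type _ := lp (fun _ : ι => ℂ) 2

theorem memL2_iff {ι : Type*} (f : ι → ℂ) : Memℓp f 2 ↔ Summable fun i => ‖f i‖ ^ 2 := by
  have h2 : (0 : ℝ) < (2 : ENNReal).toReal := by norm_num
  rw [memℓp_gen_iff h2]
  simp

theorem L2_summable {ι : Type*} (f : L2 ι) : Summable fun i => ‖f i‖ ^ 2 :=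
  (memL2_iff _).1 (lp.memℓp f)

theorem L2_norm_sq {ι : Type*} (f : L2 ι) : ‖f‖ ^ 2 = ∑' i, ‖f i‖ ^ 2 := by
  have h2 : (0 : ℝ) < (2 : ENNReal).toReal := by norm_num
  have := lp.norm_rpow_eq_tsum h2 f
  simpa using this

/-- permuting coordinates -/
noncomputable def shiftL {ι : Type*} (e : Equiv.Perm ι) : L2 ι →ₗ[ℂ] L2 ι where
  toFun f := ⟨fun i => f (e.symm i), (memL2_iff _).2
    (summable_equiv (L2_summable f) e.symm)⟩
  map_add' f g := by ext i; rfl
  map_smul' c f := by ext i; rfl

@[simp] theorem shiftL_apply {ι : Type*} (e : Equiv.Perm ι) (f : L2 ι) (i : ι) :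
    shiftL e f i = f (e.symm i) := rfl

/-- permuting coordinates, as a unitary -/
noncomputable def shift {ι : Type*} (e : Equiv.Perm ι) : L2 ι ≃ₗᵢ[ℂ] L2 ι where
  toLinearEquiv := LinearEquiv.ofLinearMap (shiftL e) (shiftL e.symm)
    (by ext f i; simp) (by ext f i; simp)
  norm_map' f := by
    have h : ‖shiftL e f‖ ^ 2 = ‖f‖ ^ 2 := by
      rw [L2_norm_sq, L2_norm_sq]
      exact e.symm.tsum_eq (fun i => ‖f i‖ ^ 2)
    have h1 : 0 ≤ ‖shiftL e f‖ := norm_nonneg _
    have h2 : 0 ≤ ‖f‖ := norm_nonneg _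
    exact (pow_left_inj₀ h1 h2 two_ne_zero).1 h

@[simp] theorem shift_apply {ι : Type*} (e : Equiv.Perm ι) (f : L2 ι) (i : ι) :
    shift e f i = f (e.symm i) := rfl

theorem shift_mul {ι : Type*} (e e' : Equiv.Perm ι) : shift (e * e') = shift e * shift e' := by
  ext f i; rfl

theorem shift_one {ι : Type*} : shift (1 : Equiv.Perm ι) = 1 := by
  ext f i; rfl

/-- left regular representation -/
noncomputable def lam (G : Type*) [Group G] : G →* (L2 G ≃ₗᵢ[ℂ] L2 G) where
  toFun g := shift (Equiv.mulLeft g)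
  map_one' := by
    ext f i
    change f ((1 : G)⁻¹ * i) = f i
    simp
  map_mul' g h := by
    ext f i
    change f ((Equiv.mulLeft (g * h)).symm i) =
      f ((Equiv.mulLeft h).symm ((Equiv.mulLeft g).symm i))
    simp [mul_assoc]

@[simp] theorem lam_apply {G : Type*} [Group G] (g : G) (f : L2 G) (x : G) :
    lam G g f x = f (g⁻¹ * x) := by
  change f ((Equiv.mulLeft g).symm x) = _
  simp

/-- the permutation of `Option (G × Fin 2)` given by left multiplication -/
def sig {G : Type*} [Group G] (g : G) : Equiv.Perm (Option (G × Fin 2)) where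
  toFun o := o.map (fun p => (g * p.1, p.2))
  invFun o := o.map (fun p => (g⁻¹ * p.1, p.2))
  left_inv o := by cases o <;> simp
  right_inv o := by cases o <;> simp

/-- trivial representation plus two copies of the regular representation -/
noncomputable def Lam (G : Type*) [Group G] :
    G →* (L2 (Option (G × Fin 2)) ≃ₗᵢ[ℂ] L2 (Option (G × Fin 2))) where
  toFun g := shift (sig g)
  map_one' := by
    ext f i
    rw [shift_apply]
    cases i <;> simp [sig]
  map_mul' g h := by
    ext f i
    change f ((sig (g * h)).symm i) = f ((sig h).symm ((sig g).symm i))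
    cases i <;> simp [sig, mul_assoc]

@[simp] theorem Lam_none {G : Type*} [Group G] (g : G) (f : L2 (Option (G × Fin 2))) :
    Lam G g f none = f none := rfl

@[simp] theorem Lam_some {G : Type*} [Group G] (g : G) (f : L2 (Option (G × Fin 2)))
    (x : G) (i : Fin 2) :
    Lam G g f (some (x, i)) = f (some (g⁻¹ * x, i)) := rfl

/-- coordinates of the integrated form -/
theorem rep_coord {G : Type*} [Group G] {ι : Type*} (π : G →* (L2 ι ≃ₗᵢ[ℂ] L2 ι)) {b : G → ℂ}
    (hb : Summable fun g => ‖b g‖) (f : L2 ι) (i : ι) :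
    HasSum (fun g => b g * π g f i) (rep π b f i) := by
  have h := hasSum_rep_apply π hb f
  have h2 := h.mapL (lp.evalCLM ℂ (fun _ : ι => ℂ) 2 i)
  exact h2

theorem rep_lam_apply {G : Type*} [Group G] {b : G → ℂ}
    (hb : Summable fun g => ‖b g‖) (f : L2 G) (x : G) :
    rep (lam G) b f x = conv b (fun g => f g) x := by
  have h := rep_coord (lam G) hb f x
  simp only [lam_apply] at h
  exact h.tsum_eq.symm

theorem rep_Lam_none {G : Type*} [Group G] {b : G → ℂ}
    (hb : Summable fun g => ‖b g‖) (f : L2 (Option (G × Fin 2))) :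
    rep (Lam G) b f none = (∑' g, b g) * f none := by
  have h := rep_coord (Lam G) hb f none
  simp only [Lam_none] at h
  rw [← h.tsum_eq, tsum_mul_right]

theorem rep_Lam_some {G : Type*} [Group G] {b : G → ℂ}
    (hb : Summable fun g => ‖b g‖) (f : L2 (Option (G × Fin 2))) (x : G) (i : Fin 2) :
    rep (Lam G) b f (some (x, i)) = conv b (fun g => f (some (g, i))) x := by
  have h := rep_coord (Lam G) hb f (some (x, i))
  simp only [Lam_some] at h
  exact h.tsum_eq.symm

theorem tsum_option {ι : Type*} {f : Option ι → ℝ} (hf : Summable f) :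
    ∑' i, f i = f none + ∑' i, f (some i) := by
  have hs : Summable fun i => f (some i) := hf.comp_injective (Option.some_injective _)
  have h1 : HasSum (fun o : Option ι => if o = none then f none else 0) (f none) :=
    hasSum_ite_eq _ _
  have h2 : HasSum (fun o : Option ι => if o = none then 0 else f o) (∑' i, f (some i)) := by
    have h3 := (Option.some_injective ι).hasSum_iff
      (f := fun o : Option ι => if o = none then 0 else f o) (a := ∑' i, f (some i)) ?_
    · rw [← h3]
      exact hs.hasSum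
    · intro x hx
      cases x with
      | none => simp
      | some y => exact absurd ⟨y, rfl⟩ hx
  have h4 := h1.add h2
  refine HasSum.tsum_eq ?_
  refine h4.congr_fun ?_
  intro o
  cases o <;> simp

/-- slices -/
noncomputable def slice {G : Type*} (f : L2 (Option (G × Fin 2))) (i : Fin 2) : L2 G :=
  ⟨fun g => f (some (g, i)), (memL2_iff _).2 (by
    have h := L2_summable f
    exact h.comp_injective (i := fun g => some (g, i)) (by
      intro a b hab; simpa using hab))⟩

theorem slice_apply {G : Type*} (f : L2 (Option (G × Fin 2))) (i : Fin 2) (g : G) :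
    slice f i g = f (some (g, i)) := rfl

theorem norm_slices {G : Type*} (f : L2 (Option (G × Fin 2))) :
    ‖f‖ ^ 2 = ‖f none‖ ^ 2 + (‖slice f 0‖ ^ 2 + ‖slice f 1‖ ^ 2) := by
  rw [L2_norm_sq, L2_norm_sq, L2_norm_sq]
  have h := L2_summable f
  have h0 := L2_summable (slice f 0)
  have h1 := L2_summable (slice f 1)
  have e1 : ∑' i, ‖f i‖ ^ 2 = ‖f none‖ ^ 2 + ∑' p : G × Fin 2, ‖f (some p)‖ ^ 2 :=
    tsum_option h
  rw [e1]
  congr 1
  have hs : Summable fun p : G × Fin 2 => ‖f (some p)‖ ^ 2 :=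
    h.comp_injective (i := some) (Option.some_injective _)
  rw [hs.tsum_prod]
  have e2 : ∀ g, ∑' i : Fin 2, ‖f (some (g, i))‖ ^ 2 = ‖slice f 0 g‖ ^ 2 + ‖slice f 1 g‖ ^ 2 := by
    intro g
    rw [tsum_fintype, Fin.sum_univ_two]; rfl
  simp_rw [e2]
  exact h0.tsum_add h1

theorem slice_rep {G : Type*} [Group G] {b : G → ℂ}
    (hb : Summable fun g => ‖b g‖) (f : L2 (Option (G × Fin 2))) (i : Fin 2) :
    slice (rep (Lam G) b f) i = rep (lam G) b (slice f i) := by
  ext x
  rw [slice_apply, rep_Lam_some hb, rep_lam_apply hb]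
  rfl

/-- lower bound for the direct sum -/
theorem Lam_lower {G : Type*} [Group G] {b : G → ℂ}
    (hb : Summable fun g => ‖b g‖) {m : ℝ} (hm : 0 ≤ m)
    (h : ∀ f : L2 G, m * ‖f‖ ≤ ‖rep (lam G) b f‖) (f : L2 (Option (G × Fin 2)))
    (h0 : f none = 0) : m * ‖f‖ ≤ ‖rep (Lam G) b f‖ := by
  have h1 : (m * ‖f‖) ^ 2 ≤ ‖rep (Lam G) b f‖ ^ 2 := by
    rw [mul_pow, norm_slices, norm_slices (rep (Lam G) b f), h0, rep_Lam_none hb, h0,
      slice_rep hb, slice_rep hb]
    have e0 := h (slice f 0)
    have e1 := h (slice f 1)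
    have p0 : 0 ≤ m * ‖slice f 0‖ := by positivity
    have p1 : 0 ≤ m * ‖slice f 1‖ := by positivity
    have q0 := pow_le_pow_left₀ p0 e0 2
    have q1 := pow_le_pow_left₀ p1 e1 2
    simp only [norm_zero, mul_zero]
    nlinarith
  exact (pow_le_pow_iff_left₀ (by positivity) (norm_nonneg _) two_ne_zero).1 h1

end Pool.Agent.Lib_MP_11aa79_an
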