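import Mathlib
import Pool.Agent.Lib_MP_11aa79_an.Shift

namespace Pool.Agent.Lib_MP_11aa79_an

open FreeGroup Filter Topology
open scoped Classical

section
variable {G : Type*} [Group G]

/-- right translation -/
noncomputable def rho (g : G) : L2 G ≃ₗᵢ[ℂ] L2 G := shift (Equiv.mulRight g)

@[simp] theorem rho_apply (g : G) (f : L2 G) (x : G) : rho g f x = f (x * g⁻¹) := by
  change f ((Equiv.mulRight g).symm x) = _
  simp

/-- commutes with right translations -/
def RC (T : L2 G →L[ℂ] L2 G) : Prop := ∀ (g : G) (f : L2 G), T (rho g f) = rho g (T f)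

theorem RC_rep {b : G → ℂ} (hb : Summable fun g => ‖b g‖) : RC (rep (lam G) b) := by
  intro g f
  ext x
  rw [rho_apply, rep_lam_apply hb, rep_lam_apply hb]
  unfold conv
  congr 1
  ext k
  change b k * (rho g f) (k⁻¹ * x) = b k * f (k⁻¹ * (x * g⁻¹))
  rw [rho_apply, mul_assoc]

theorem RC_mul {S T : L2 G →L[ℂ] L2 G} (hS : RC S) (hT : RC T) : RC (S * T) := by
  intro g f
  change S (T (rho g f)) = rho g (S (T f))
  rw [hT, hS]

theorem RC_one : RC (1 : L2 G →L[ℂ] L2 G) := fun _ _ => rfl

theorem RC_sub {S T : L2 G →L[ℂ] L2 G} (hS : RC S) (hT : RC T) : RC (S - T) := by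
  intro g f
  change S (rho g f) - T (rho g f) = rho g (S f - T f)
  rw [hT, hS, map_sub]

theorem RC_inv {A B : L2 G →L[ℂ] L2 G} (hA : RC A) (h1 : A * B = 1) (h2 : B * A = 1) : RC B := by
  intro g f
  have e1 : ∀ v, A (B v) = v := fun v => by
    have := congrArg (fun T : L2 G →L[ℂ] L2 G => T v) h1
    simpa using this
  have e2 : ∀ v, B (A v) = v := fun v => by
    have := congrArg (fun T : L2 G →L[ℂ] L2 G => T v) h2
    simpa using this
  rw [← e2 (rho g (B f)), hA, e1]

/-- the delta function at one -/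
noncomputable def dl (g : G) : L2 G := lp.single 2 g (1 : ℂ)

omit [Group G] in
theorem dl_apply (g x : G) : dl g x = if x = g then 1 else 0 := by
  unfold dl
  rw [lp.coeFn_single]
  by_cases h : x = g
  · subst h; simp
  · rw [Pi.single_eq_of_ne h]; simp [h]

theorem rho_dl (g : G) : rho g (dl 1) = dl g := by
  ext x
  rw [rho_apply, dl_apply, dl_apply]
  congr 1
  rw [eq_iff_iff, mul_inv_eq_one]

omit [Group G] in
theorem expand (f : L2 G) : HasSum (fun g => f g • dl g) f := by
  have h := lp.hasSum_single (E := fun _ : G => ℂ) (p := 2) (by norm_num) f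
  refine h.congr_fun ?_
  intro g
  unfold dl
  rw [← lp.single_smul]
  simp

omit [Group G] in
theorem apply_expand {S : L2 G →L[ℂ] L2 G} (f : L2 G) : HasSum (fun g => f g • S (dl g)) (S f) := by
  have := (expand f).mapL S
  simpa using this

/-- the trace -/
noncomputable def tr (T : L2 G →L[ℂ] L2 G) : ℂ := T (dl 1) 1

theorem tr_mul {S T : L2 G →L[ℂ] L2 G} (hS : RC S) :
    HasSum (fun g => T (dl 1) g * S (dl 1) g⁻¹) (tr (S * T)) := by
  have h1 := (apply_expand (S := S) (T (dl 1))).mapL (lp.evalCLM ℂ (fun _ : G => ℂ) 2 1)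
  refine h1.congr_fun ?_
  intro g
  change T (dl 1) g * S (dl 1) g⁻¹ = T (dl 1) g * (S (dl g)) 1
  rw [← rho_dl g, hS, rho_apply, one_mul]

theorem tr_comm {S T : L2 G →L[ℂ] L2 G} (hS : RC S) (hT : RC T) : tr (S * T) = tr (T * S) := by
  have h1 := tr_mul (T := T) hS
  have h2 := tr_mul (T := S) hT
  have h3 := (Equiv.inv G).hasSum_iff.2 h2
  refine h1.unique ?_
  refine h3.congr_fun ?_
  intro g
  simp [mul_comm]

omit [Group G] in
theorem inner_dl (g : G) (f : L2 G) : inner ℂ (dl g) f = f g := by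
  unfold dl
  rw [lp.inner_single_left]
  simp

/-- an idempotent of trace one commuting with right translations is the identity -/
theorem idem_eq_one {X : L2 G →L[ℂ] L2 G} (hX : RC X) (hid : X * X = X) (htr : tr X = 1) :
    X = 1 := by
  set E : L2 G →L[ℂ] L2 G := 1 - X with hE
  have hEapp : ∀ v, E v = v - X v := fun v => rfl
  have hXX : ∀ v, X (X v) = X v := fun v => by
    have := congrArg (fun T : L2 G →L[ℂ] L2 G => T v) hid
    simpa using this
  set K : Submodule ℂ (L2 G) := LinearMap.ker (X : L2 G →ₗ[ℂ] L2 G) with hK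
  have hmem : ∀ v, v ∈ K ↔ X v = 0 := fun v => LinearMap.mem_ker
  have hclosed : IsClosed (K : Set (L2 G)) := by
    have : (K : Set (L2 G)) = X ⁻¹' {0} := by
      ext v; exact hmem v
    rw [this]
    exact isClosed_singleton.preimage X.continuous
  have : CompleteSpace K := hclosed.completeSpace_coe
  set P : L2 G →L[ℂ] L2 G := K.starProjection with hP
  have hPmem : ∀ v, P v ∈ K := fun v => K.starProjection_apply_mem v
  have hPE : P * E = E := by
    ext1 v
    change P (E v) = E v
    apply Submodule.starProjection_eq_self_iff.2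
    rw [hmem, hEapp, map_sub, hXX, sub_self]
  have hEP : E * P = P := by
    ext1 v
    change E (P v) = P v
    rw [hEapp, (hmem _).1 (hPmem v), sub_zero]
  have hPRC : RC P := by
    intro g f
    apply Submodule.eq_starProjection_of_mem_of_inner_eq_zero
    · rw [hmem, hX, (hmem _).1 (hPmem f), map_zero]
    · intro w hw
      have e1 : rho g f - rho g (P f) = rho g (f - P f) := by rw [map_sub]
      rw [e1, inner_uc_left]
      apply K.starProjection_inner_eq_zero f
      rw [hmem]
      have e2 : X ((rho g)⁻¹ w) = (rho g)⁻¹ (X w) := by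
        have h1 : rho g (X ((rho g)⁻¹ w)) = X w := by
          rw [← hX]
          congr 1
          change (rho g * (rho g)⁻¹) w = w
          rw [mul_inv_cancel]; rfl
        rw [← h1]
        change _ = ((rho g)⁻¹ * rho g) _
        rw [inv_mul_cancel]; rfl
      rw [e2, (hmem _).1 hw, map_zero]
  have hERC : RC E := RC_sub RC_one hX
  have htrE : tr E = 0 := by
    unfold tr at htr ⊢
    rw [hEapp]
    change (dl 1 : L2 G) 1 - X (dl 1) 1 = 0
    rw [htr, dl_apply]; simp
  have htrP : tr P = 0 := by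
    rw [← hEP, tr_comm hERC hPRC, hPE, htrE]
  have hP1 : P (dl 1) = 0 := by
    have h1 : inner ℂ (P (dl 1)) (P (dl 1)) = tr P := by
      have h2 : inner ℂ (P (dl 1)) (P (dl 1)) = inner ℂ (dl (1 : G)) (P (dl 1)) := by
        have h3 : inner ℂ (dl (1 : G) - P (dl 1)) (P (dl 1)) = 0 :=
          K.starProjection_inner_eq_zero _ _ (hPmem _)
        rw [inner_sub_left, sub_eq_zero] at h3
        exact h3.symm
      rw [h2, inner_dl]; rfl
    rw [htrP] at h1
    exact inner_self_eq_zero.1 h1
  have hPg : ∀ g, P (dl g) = 0 := by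
    intro g
    rw [← rho_dl g, hPRC, hP1, map_zero]
  have hP0 : ∀ f, P f = 0 := by
    intro f
    have h := apply_expand (S := P) f
    have h2 : (fun g => f g • P (dl g)) = fun _ => 0 := by
      ext1 g; rw [hPg, smul_zero]
    rw [h2] at h
    exact h.unique hasSum_zero
  have hE0 : ∀ f, E f = 0 := by
    intro f
    have := congrArg (fun T : L2 G →L[ℂ] L2 G => T f) hPE
    change P (E f) = E f at this
    rw [← this, hP0]
  ext1 f
  have := hE0 f
  rw [hEapp, sub_eq_zero] at this
  exact this.symm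

/-- direct finiteness -/
theorem dir_fin {A B C Ai : L2 G →L[ℂ] L2 G} (hA : RC A) (hB : RC B) (hC : RC C)
    (h : B * C = A) (h1 : A * Ai = 1) (h2 : Ai * A = 1) : C * (Ai * B) = 1 := by
  have hAi : RC Ai := RC_inv hA h1 h2
  apply idem_eq_one (RC_mul hC (RC_mul hAi hB))
  · calc C * (Ai * B) * (C * (Ai * B)) = C * (Ai * (B * C)) * (Ai * B) := by
          simp only [mul_assoc]
      _ = C * (Ai * B) := by rw [h, h2, mul_one]
  · rw [tr_comm hC (RC_mul hAi hB), mul_assoc, h, h2]
    unfold tr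
    change (dl 1 : L2 G) 1 = 1
    rw [dl_apply]; simp

/-- lower bounds -/
theorem lower_bounds {a b c : G → ℂ} (ha : Summable fun g => ‖a g‖)
    (hb : Summable fun g => ‖b g‖) (hc : Summable fun g => ‖c g‖) (habc : conv b c = a)
    (hunit : IsUnit (rep (lam G) a)) : ∃ m : ℝ, 0 < m ∧
      (∀ f : L2 G, m * ‖f‖ ≤ ‖rep (lam G) b f‖) ∧
      (∀ f : L2 G, m * ‖f‖ ≤ ‖rep (lam G) (adj c) f‖) := by
  obtain ⟨u, hu⟩ := hunit
  set A := rep (lam G) a with hA
  set B := rep (lam G) b with hB
  set C := rep (lam G) c with hC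
  have hBC : B * C = A := by rw [hA, ← habc, rep_conv _ hb hc]
  have h1 : A * (u⁻¹).val = 1 := by rw [← hu]; simp
  have h2 : (u⁻¹).val * A = 1 := by rw [← hu]; simp
  set Ai : L2 G →L[ℂ] L2 G := (u⁻¹).val with hAi
  have hX := dir_fin (RC_rep ha) (RC_rep hb) (RC_rep hc) hBC h1 h2
  rw [← hB, ← hC] at hX
  -- (C * Ai) * B = 1 ?
  have hC2 : (Ai * B) * C = 1 := by rw [mul_assoc, hBC, h2]
  have hB2 : (C * Ai) * B = 1 := by rw [mul_assoc]; exact hX
  set S := C * Ai with hS
  set T := Ai * B with hT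
  refine ⟨1 / (‖S‖ + ‖T‖ + 1), by positivity, ?_, ?_⟩
  · intro f
    have e1 : S (B f) = f := by
      have := congrArg (fun T : L2 G →L[ℂ] L2 G => T f) hB2
      simpa using this
    have e2 : ‖f‖ ≤ ‖S‖ * ‖B f‖ := by
      calc ‖f‖ = ‖S (B f)‖ := by rw [e1]
        _ ≤ _ := S.le_opNorm _
    rw [div_mul_eq_mul_div, one_mul, div_le_iff₀ (by positivity)]
    have e3 : 0 ≤ ‖T‖ * ‖B f‖ := by positivity
    have e4 : 0 ≤ ‖B f‖ := norm_nonneg _
    nlinarith
  · intro f
    -- inner product argument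
    have e1 : ∀ v, C (T v) = v := fun v => by
      have := congrArg (fun T : L2 G →L[ℂ] L2 G => T v) hX
      simpa using this
    set g := rep (lam G) (adj c) f with hg
    have e2 : ‖f‖ ^ 2 ≤ ‖T‖ * ‖f‖ * ‖g‖ := by
      have h3 : inner ℂ f f = inner ℂ (T f) g := by
        rw [hg, ← inner_rep_left (lam G) hc, ← hC, e1]
      have h4 : ‖f‖ ^ 2 = ‖inner ℂ f f‖ := by
        rw [inner_self_eq_norm_sq_to_K]; simp
      rw [h4, h3]
      refine (norm_inner_le_norm _ _).trans ?_
      gcongr
      exact T.le_opNorm f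
    rw [div_mul_eq_mul_div, one_mul, div_le_iff₀ (by positivity)]
    have e5 : 0 ≤ ‖f‖ := norm_nonneg _
    rcases eq_or_lt_of_le e5 with h0 | h0
    · rw [← h0]; positivity
    · have e6 : ‖f‖ ≤ ‖T‖ * ‖g‖ := by
        have : ‖f‖ * ‖f‖ ≤ (‖T‖ * ‖g‖) * ‖f‖ := by nlinarith
        exact le_of_mul_le_mul_right this h0
      have e7 : 0 ≤ ‖S‖ * ‖g‖ := by positivity
      have e8 : 0 ≤ ‖g‖ := norm_nonneg _
      nlinarith

end

end Pool.Agent.Lib_MP_11aa79_an
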