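import Mathlib
import Pool.Agent.Lib_MP_11aa79_an.Rep

namespace Pool.Agent.Lib_MP_11aa79_an

open Filter Topology

section
variable {H : Type*} [NormedAddCommGroup H] [InnerProductSpace ℂ H]

/-- rotation in the plane spanned by orthonormal vectors `e`, `f` -/
noncomputable def rotC (e f : H) (z τ : ℝ) : H →L[ℂ] H :=
  1 + ((z : ℂ) - 1) • ((innerSL ℂ e).smulRight e + (innerSL ℂ f).smulRight f) +
    (τ : ℂ) • ((innerSL ℂ e).smulRight f - (innerSL ℂ f).smulRight e)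

theorem rotC_apply (e f : H) (z τ : ℝ) (x : H) : rotC e f z τ x =
    x + (((z : ℂ) - 1) * inner ℂ e x - τ * inner ℂ f x) • e +
      (((z : ℂ) - 1) * inner ℂ f x + τ * inner ℂ e x) • f := by
  have h : rotC e f z τ x = x + ((z : ℂ) - 1) • (inner ℂ e x • e + inner ℂ f x • f) +
      (τ : ℂ) • (inner ℂ e x • f - inner ℂ f x • e) := rfl
  rw [h]
  module

theorem rotC_inner (e f : H) (z τ : ℝ) (x y : H) :
    inner ℂ (rotC e f z τ x) y = inner ℂ x (rotC e f z (-τ) y) := by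
  rw [rotC_apply, rotC_apply]
  simp only [inner_add_left, inner_add_right, inner_smul_left, inner_smul_right, map_sub, map_add,
    map_mul, Complex.conj_ofReal, map_one, inner_conj_symm]
  push_cast
  ring

theorem rotC_comp (e f : H) (z τ : ℝ) (he : inner ℂ e e = (1 : ℂ)) (hf : inner ℂ f f = (1 : ℂ))
    (hef : inner ℂ e f = (0 : ℂ)) (h : z ^ 2 + τ ^ 2 = 1) (x : H) :
    rotC e f z (-τ) (rotC e f z τ x) = x := by
  have hfe : inner ℂ f e = (0 : ℂ) := by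
    rw [← inner_conj_symm, hef]; simp
  have hc : (z : ℂ) ^ 2 + (τ : ℂ) ^ 2 = 1 := by exact_mod_cast h
  have h1 : inner ℂ e (rotC e f z τ x) = z * inner ℂ e x - τ * inner ℂ f x := by
    rw [rotC_apply]
    simp only [inner_add_right, inner_smul_right, he, hef]
    ring
  have h2 : inner ℂ f (rotC e f z τ x) = z * inner ℂ f x + τ * inner ℂ e x := by
    rw [rotC_apply]
    simp only [inner_add_right, inner_smul_right, hfe, hf]
    ring
  rw [rotC_apply e f z (-τ), h1, h2, rotC_apply]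
  set a := inner ℂ e x
  set b := inner ℂ f x
  have e1 : ((z : ℂ) - 1) * a - τ * b + (((z : ℂ) - 1) * (z * a - τ * b) -
      ((-τ : ℝ) : ℂ) * (z * b + τ * a)) = 0 := by
    push_cast
    linear_combination a * hc
  have e2 : ((z : ℂ) - 1) * b + τ * a + (((z : ℂ) - 1) * (z * b + τ * a) +
      ((-τ : ℝ) : ℂ) * (z * a - τ * b)) = 0 := by
    push_cast
    linear_combination b * hc
  have e3 : x + (((z : ℂ) - 1) * a - τ * b) • e + (((z : ℂ) - 1) * b + τ * a) • f +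
      (((z : ℂ) - 1) * (z * a - τ * b) - ((-τ : ℝ) : ℂ) * (z * b + τ * a)) • e +
      (((z : ℂ) - 1) * (z * b + τ * a) + ((-τ : ℝ) : ℂ) * (z * a - τ * b)) • f =
      x + (((z : ℂ) - 1) * a - τ * b + (((z : ℂ) - 1) * (z * a - τ * b) -
      ((-τ : ℝ) : ℂ) * (z * b + τ * a))) • e + (((z : ℂ) - 1) * b + τ * a +
      (((z : ℂ) - 1) * (z * b + τ * a) + ((-τ : ℝ) : ℂ) * (z * a - τ * b))) • f := by
    module
  rw [e3, e1, e2, zero_smul, zero_smul, add_zero, add_zero]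

/-- the rotation as a unitary -/
noncomputable def rotE (e f : H) (z τ : ℝ) (he : inner ℂ e e = (1 : ℂ))
    (hf : inner ℂ f f = (1 : ℂ)) (hef : inner ℂ e f = (0 : ℂ)) (h : z ^ 2 + τ ^ 2 = 1) :
    H ≃ₗᵢ[ℂ] H where
  toFun := rotC e f z τ
  map_add' := (rotC e f z τ).map_add
  map_smul' := (rotC e f z τ).map_smul
  invFun := rotC e f z (-τ)
  left_inv := rotC_comp e f z τ he hf hef h
  right_inv := by
    intro x
    have := rotC_comp e f z (-τ) he hf hef (by rw [neg_sq]; exact h) x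
    rwa [neg_neg] at this
  norm_map' := by
    intro x
    have h1 : inner ℂ (rotC e f z τ x) (rotC e f z τ x) = (inner ℂ x x : ℂ) := by
      rw [rotC_inner, rotC_comp e f z τ he hf hef h]
    rw [inner_self_eq_norm_sq_to_K, inner_self_eq_norm_sq_to_K] at h1
    have h2 : ‖rotC e f z τ x‖ ^ 2 = ‖x‖ ^ 2 := by exact_mod_cast h1
    exact (pow_left_inj₀ (norm_nonneg _) (norm_nonneg _) two_ne_zero).1 h2

theorem rotE_apply (e f : H) (z τ : ℝ) (he hf hef h) (x : H) :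
    rotE e f z τ he hf hef h x = rotC e f z τ x := rfl

theorem rotC_tendsto (e f : H) :
    Tendsto (fun θ : ℝ => rotC e f (Real.cos θ) (Real.sin θ)) (𝓝 0) (𝓝 1) := by
  have h : Continuous fun θ : ℝ => rotC e f (Real.cos θ) (Real.sin θ) := by
    unfold rotC
    fun_prop
  have h0 := h.tendsto 0
  have h1 : rotC e f (Real.cos 0) (Real.sin 0) = 1 := by
    unfold rotC
    simp
  rw [h1] at h0
  exact h0

/-- projection off the unit vector `e` -/
noncomputable def Qp (e : H) : H →L[ℂ] H := 1 - (innerSL ℂ e).smulRight e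

theorem Qp_apply (e x : H) : Qp e x = x - inner ℂ e x • e := rfl

theorem Qp_inner (e : H) (he : inner ℂ e e = (1 : ℂ)) (x : H) :
    inner ℂ e (Qp e x) = (0 : ℂ) := by
  rw [Qp_apply, inner_sub_right, inner_smul_right, he, mul_one, sub_self]

theorem Qp_pyth (e : H) (he : inner ℂ e e = (1 : ℂ)) (x : H) :
    ‖x‖ ^ 2 = ‖(inner ℂ e x : ℂ)‖ ^ 2 + ‖Qp e x‖ ^ 2 := by
  have hne : ‖e‖ = 1 := by
    have h1 := inner_self_eq_norm_sq (𝕜 := ℂ) e
    rw [he] at h1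
    have h2 : ‖e‖ ^ 2 = 1 := by rw [← h1]; simp
    nlinarith [norm_nonneg e]
  have h : x = inner ℂ e x • e + Qp e x := by rw [Qp_apply]; abel
  have h2 : inner ℂ ((inner ℂ e x : ℂ) • e) (Qp e x) = (0 : ℂ) := by
    rw [inner_smul_left, Qp_inner e he, mul_zero]
  have h3 := norm_add_sq_eq_norm_sq_add_norm_sq_of_inner_eq_zero _ _ h2
  rw [← h, norm_smul, hne, mul_one] at h3
  nlinarith [h3]

theorem Qp_norm_le (e : H) (he : inner ℂ e e = (1 : ℂ)) (x : H) : ‖Qp e x‖ ≤ ‖x‖ := by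
  have h := Qp_pyth e he x
  have h1 : ‖Qp e x‖ ^ 2 ≤ ‖x‖ ^ 2 := by nlinarith [sq_nonneg ‖(inner ℂ e x : ℂ)‖]
  exact (pow_le_pow_iff_left₀ (norm_nonneg _) (norm_nonneg _) two_ne_zero).1 h1

/-- first basic inequality -/
theorem ineq1 (e : H) (he : inner ℂ e e = (1 : ℂ)) (B B0 : H →L[ℂ] H) {m : ℝ}
    (h1 : ∀ v, inner ℂ e v = (0 : ℂ) → m * ‖v‖ ≤ ‖B0 v‖)
    (h2 : ∀ v, inner ℂ e v = (0 : ℂ) → inner ℂ e (B0 v) = (0 : ℂ))
    (h3 : ‖B - B0‖ ≤ m / 2) (w : H) :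
    m / 2 * ‖Qp e w‖ ≤ ‖Qp e (B w)‖ + ‖(inner ℂ e w : ℂ)‖ * ‖Qp e (B e)‖ := by
  set c := Qp e w with hc
  have hce : inner ℂ e c = (0 : ℂ) := Qp_inner e he w
  have hw : w = inner ℂ e w • e + c := by rw [hc, Qp_apply]; abel
  have e1 : Qp e (B c) = Qp e (B w) - (inner ℂ e w : ℂ) • Qp e (B e) := by
    conv_rhs => rw [hw]
    rw [map_add, map_smul, map_add, map_smul, inner_add_right, inner_smul_right, he, hce]
    simp
  have e2 : Qp e (B0 c) = B0 c := by rw [Qp_apply, h2 c hce, zero_smul, sub_zero]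
  have e3 : B0 c = Qp e (B c) - Qp e ((B - B0) c) := by
    rw [← map_sub]
    have : B c - (B - B0) c = B0 c := by
      change B c - (B c - B0 c) = B0 c
      abel
    rw [this, e2]
  have e4 : m * ‖c‖ ≤ ‖Qp e (B c)‖ + ‖Qp e ((B - B0) c)‖ := by
    refine (h1 c hce).trans ?_
    rw [e3]
    exact norm_sub_le _ _
  have e5 : ‖Qp e ((B - B0) c)‖ ≤ m / 2 * ‖c‖ := by
    refine (Qp_norm_le e he _).trans ?_
    refine ((B - B0).le_opNorm c).trans ?_
    gcongr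
  have e6 : ‖Qp e (B c)‖ ≤ ‖Qp e (B w)‖ + ‖(inner ℂ e w : ℂ)‖ * ‖Qp e (B e)‖ := by
    rw [e1]
    refine (norm_sub_le _ _).trans ?_
    rw [norm_smul]
  linarith

/-- second basic inequality -/
theorem ineq2 (e : H) (he : inner ℂ e e = (1 : ℂ)) (u v : H) :
    ‖(inner ℂ e u : ℂ)‖ * ‖(inner ℂ e v : ℂ)‖ ≤ ‖(inner ℂ u v : ℂ)‖ + ‖Qp e u‖ * ‖Qp e v‖ := by
  have hu : u = inner ℂ e u • e + Qp e u := by rw [Qp_apply]; abel
  have hv : v = inner ℂ e v • e + Qp e v := by rw [Qp_apply]; abel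
  have h1 : inner ℂ u v = (starRingEnd ℂ) (inner ℂ e u) * inner ℂ e v +
      inner ℂ (Qp e u) (Qp e v) := by
    conv_lhs => rw [hu, hv]
    have h3 : inner ℂ (Qp e u) e = (0 : ℂ) := by
      rw [← inner_conj_symm, Qp_inner e he, map_zero]
    simp only [inner_add_left, inner_add_right, inner_smul_left, inner_smul_right, he,
      Qp_inner e he, h3]
    ring
  have h2 : (starRingEnd ℂ) (inner ℂ e u) * inner ℂ e v =
      inner ℂ u v - inner ℂ (Qp e u) (Qp e v) := by rw [h1]; ring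
  calc ‖(inner ℂ e u : ℂ)‖ * ‖(inner ℂ e v : ℂ)‖ =
        ‖(starRingEnd ℂ) (inner ℂ e u) * inner ℂ e v‖ := by
        rw [norm_mul, RCLike.norm_conj]
    _ ≤ ‖(inner ℂ u v : ℂ)‖ + ‖(inner ℂ (Qp e u) (Qp e v) : ℂ)‖ := by
        rw [h2]; exact norm_sub_le _ _
    _ ≤ _ := by
        gcongr
        exact norm_inner_le_norm _ _

end

/-- the real variable dichotomy -/
theorem dichotomy {F : Filter ℝ} {m K : ℝ} (hm : 0 < m) (hK : 0 ≤ K)
    {τ f g u v β γ : ℝ → ℝ} (hτ : ∀ᶠ θ in F, 0 < τ θ)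
    (hf0 : ∀ θ, 0 ≤ f θ) (hg0 : ∀ θ, 0 ≤ g θ) (hu0 : ∀ θ, 0 ≤ u θ) (hv0 : ∀ θ, 0 ≤ v θ)
    (hβ0 : ∀ θ, 0 ≤ β θ) (hγ0 : ∀ θ, 0 ≤ γ θ)
    (hβ : Tendsto β F (𝓝 0)) (hγ : Tendsto γ F (𝓝 0))
    (hf : ∀ᶠ θ in F, m * f θ ≤ K * τ θ + u θ * β θ)
    (hg : ∀ᶠ θ in F, m * g θ ≤ K * τ θ + v θ * γ θ)
    (huv : ∀ᶠ θ in F, u θ * v θ ≤ K * τ θ ^ 2 + g θ * f θ) :
    (∃ K', ∃ᶠ θ in F, f θ ≤ K' * τ θ) ∨ (∃ K', ∀ᶠ θ in F, g θ ≤ K' * τ θ) := by
  by_cases h : ∃ K', ∃ᶠ θ in F, f θ ≤ K' * τ θ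
  · exact Or.inl h
  right
  push Not at h
  have h1 : ∀ᶠ θ in F, ¬ f θ ≤ (2 * K / m + 1) * τ θ := by
    have := h (2 * K / m + 1)
    simpa [Filter.not_frequently] using this
  have b1 : ∀ᶠ θ in F, β θ < m / 4 := hβ.eventually_lt_const (by positivity)
  have b2 : ∀ᶠ θ in F, β θ < m ^ 2 / 4 := hβ.eventually_lt_const (by positivity)
  have b3 : ∀ᶠ θ in F, γ θ < 1 := hγ.eventually_lt_const one_pos
  refine ⟨4 * K / m, ?_⟩
  filter_upwards [hτ, hf, hg, huv, h1, b1, b2, b3] with θ t1 t2 t3 t4 t5 t6 t7 t8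
  push Not at t5
  have f0 := hf0 θ
  have g0 := hg0 θ
  have u0 := hu0 θ
  have v0 := hv0 θ
  have β0 := hβ0 θ
  have γ0 := hγ0 θ
  set T := τ θ
  set f' := f θ
  set g' := g θ
  set u' := u θ
  set v' := v θ
  set β' := β θ
  set γ' := γ θ
  have c1 : 2 * K * T + m * T < m * f' := by
    have : m * ((2 * K / m + 1) * T) = 2 * K * T + m * T := by field_simp
    nlinarith
  have c2 : m * f' ≤ 2 * (u' * β') := by nlinarith
  have c3 : f' ≤ u' / 2 := by
    have : m * f' ≤ 2 * (u' * (m / 4)) := by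
      refine c2.trans ?_
      gcongr
    nlinarith
  have c4 : T < f' := by
    have : m * T < m * f' := by nlinarith [mul_nonneg hK t1.le]
    exact lt_of_mul_lt_mul_left this hm.le
  have c5 : T ≤ u' := by linarith
  have u1 : 0 < u' := by linarith
  -- v' ≤ K T + (2 β'/m) g'
  have c6 : v' ≤ K * T + 2 * β' / m * g' := by
    have d1 : f' ≤ 2 * β' / m * u' := by
      rw [div_mul_eq_mul_div, le_div_iff₀ hm]; linarith
    have d2 : u' * v' ≤ u' * (K * T + 2 * β' / m * g') := by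
      calc u' * v' ≤ K * T ^ 2 + g' * f' := t4
        _ ≤ K * T * u' + g' * (2 * β' / m * u') := by
            have : K * T ^ 2 ≤ K * T * u' := by
              rw [sq, ← mul_assoc]
              gcongr
            have h2 : g' * f' ≤ g' * (2 * β' / m * u') := by gcongr
            linarith
        _ = _ := by ring
    exact le_of_mul_le_mul_left d2 u1
  have c7 : 2 * β' / m ≤ m / 2 := by
    rw [div_le_iff₀ hm]; nlinarith
  have c8 : v' * γ' ≤ K * T + m / 2 * g' := by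
    have : v' ≤ K * T + m / 2 * g' := by
      refine c6.trans ?_
      gcongr
    have h0 : 0 ≤ K * T + m / 2 * g' := by positivity
    nlinarith
  have c9 : m * g' ≤ 2 * (2 * K * T) := by nlinarith
  rw [div_mul_eq_mul_div, le_div_iff₀ hm]
  linarith

end Pool.Agent.Lib_MP_11aa79_an
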