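import Mathlib
import Pool.Agent.Lib_MP_11aa79_an.Rot
import Pool.Agent.Lib_MP_11aa79_an.DirFin

namespace Pool.Agent.Lib_MP_11aa79_an

open FreeGroup Filter Topology
open scoped Classical

/-- index set of the big Hilbert space -/
abbrev IX : Type := Option (FreeGroup (Fin 2) × Fin 2)

/-- vacuum vector -/
noncomputable def e0 : L2 IX := dl none

/-- the vectors to which the vacuum is rotated -/
noncomputable def fi (i : Fin 2) : L2 IX := dl (some (1, i))

theorem e0_e0 : inner ℂ e0 e0 = (1 : ℂ) := by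
  unfold e0; rw [inner_dl, dl_apply, if_pos rfl]

theorem fi_fi (i : Fin 2) : inner ℂ (fi i) (fi i) = (1 : ℂ) := by
  unfold fi; rw [inner_dl, dl_apply, if_pos rfl]

theorem e0_fi (i : Fin 2) : inner ℂ e0 (fi i) = (0 : ℂ) := by
  unfold fi e0; rw [inner_dl, dl_apply, if_neg (by simp)]

theorem inner_e0 (v : L2 IX) : inner ℂ e0 v = v none := by
  unfold e0; rw [inner_dl]

theorem inner_fi (i : Fin 2) (v : L2 IX) : inner ℂ (fi i) v = v (some (1, i)) := by
  unfold fi; rw [inner_dl]

theorem e0_none : e0 none = 1 := by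
  unfold e0; rw [dl_apply, if_pos rfl]

theorem e0_some (p : FreeGroup (Fin 2) × Fin 2) : e0 (some p) = 0 := by
  unfold e0; rw [dl_apply, if_neg (by simp)]

theorem fi_none (i : Fin 2) : fi i none = 0 := by
  unfold fi; rw [dl_apply, if_neg (by simp)]

theorem fi_self (i : Fin 2) : fi i (some (1, i)) = 1 := by
  unfold fi; rw [dl_apply, if_pos rfl]

theorem fi_ne (i j : Fin 2) (g : FreeGroup (Fin 2)) (h : ¬ (g = 1 ∧ j = i)) :
    fi i (some (g, j)) = 0 := by
  unfold fi
  rw [dl_apply, if_neg]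
  intro hh
  simp only [Option.some.injEq, Prod.mk.injEq] at hh
  exact h hh

/-- images of the generators -/
noncomputable def U (θ : ℝ) (i : Fin 2) : L2 IX ≃ₗᵢ[ℂ] L2 IX :=
  rotE e0 (fi i) (Real.cos θ) (Real.sin θ) e0_e0 (fi_fi i) (e0_fi i)
    (by rw [Real.cos_sq_add_sin_sq]) * Lam (FreeGroup (Fin 2)) (FreeGroup.of i)

/-- the family of representations -/
noncomputable def pir (θ : ℝ) : FreeGroup (Fin 2) →* (L2 IX ≃ₗᵢ[ℂ] L2 IX) :=
  FreeGroup.lift (U θ)

theorem pir_of (θ : ℝ) (i : Fin 2) : pir θ (FreeGroup.of i) = U θ i := by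
  unfold pir; simp

theorem lt_true (i : Fin 2) : lt (i, true) = FreeGroup.of i := rfl

/-- function level version of the generators -/
noncomputable def Uf (z τ : ℂ) (i : Fin 2) (v : IX → ℂ) : IX → ℂ
  | none => z * v none - τ * v (some ((lt (i, true))⁻¹, i))
  | some (g, j) => if g = 1 ∧ j = i then τ * v none + z * v (some ((lt (i, true))⁻¹, i))
      else v (some ((lt (i, true))⁻¹ * g, j))

theorem U_coord (θ : ℝ) (i : Fin 2) (v : L2 IX) (o : IX) :
    U θ i v o = Uf (Real.cos θ) (Real.sin θ) i (fun o => v o) o := by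
  have h : U θ i v = rotC e0 (fi i) (Real.cos θ) (Real.sin θ)
    (Lam (FreeGroup (Fin 2)) (FreeGroup.of i) v) := rfl
  rw [h, rotC_apply, inner_e0, inner_fi, Lam_none, Lam_some, mul_one, ← lt_true]
  set w := Lam (FreeGroup (Fin 2)) (lt (i, true)) v with hw
  set α : ℂ := ((Real.cos θ : ℂ) - 1) * v none - Real.sin θ * v (some ((lt (i, true))⁻¹, i)) with hα
  set β : ℂ := ((Real.cos θ : ℂ) - 1) * v (some ((lt (i, true))⁻¹, i)) + Real.sin θ * v none with hβ
  change w o + α * e0 o + β * fi i o = _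
  cases o with
  | none =>
    rw [e0_none, fi_none]
    simp only [Uf, hw, Lam_none, hα]
    ring
  | some p =>
    obtain ⟨g, j⟩ := p
    rw [e0_some]
    by_cases hgj : g = 1 ∧ j = i
    · obtain ⟨hg, hj⟩ := hgj
      subst hg hj
      rw [fi_self]
      simp only [Uf, hw, Lam_some]
      simp only [and_self, if_true, mul_one, hβ]
      ring
    · rw [fi_ne i j g hgj]
      simp only [Uf, hw, Lam_some]
      rw [if_neg hgj]
      ring

theorem Uf_inj {z τ : ℂ} (h : z ^ 2 + τ ^ 2 = 1) (i : Fin 2) {v w : IX → ℂ}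
    (hvw : Uf z τ i v = Uf z τ i w) : v = w := by
  have h1 := congrFun hvw none
  have h2 := congrFun hvw (some (1, i))
  simp only [Uf, and_self, if_true] at h1 h2
  have e1 : v none = w none := by linear_combination z * h1 + τ * h2 - (v none - w none) * h
  have e2 : v (some ((lt (i, true))⁻¹, i)) = w (some ((lt (i, true))⁻¹, i)) := by
    linear_combination z * h2 - τ * h1 -
      (v (some ((lt (i, true))⁻¹, i)) - w (some ((lt (i, true))⁻¹, i))) * h
  funext o
  cases o with
  | none => exact e1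
  | some p =>
    obtain ⟨g, j⟩ := p
    by_cases hgj : lt (i, true) * g = 1 ∧ j = i
    · have hg : g = (lt (i, true))⁻¹ := by
        have := hgj.1
        rw [mul_eq_one_iff_inv_eq] at this
        exact this.symm
      rw [hg, hgj.2]; exact e2
    · have h3 := congrFun hvw (some (lt (i, true) * g, j))
      simp only [Uf] at h3
      rw [if_neg hgj, if_neg hgj, inv_mul_cancel_left] at h3
      exact h3

/-- the coordinates of the orbit of the vacuum -/
noncomputable def Fv (z τ : ℂ) (h : FreeGroup (Fin 2)) : IX → ℂ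
  | none => z ^ h.norm
  | some (g, j) => if St (j, true) g⁻¹ then
      (if St (j, true) (g⁻¹ * h) then 0 else - τ * z ^ (g⁻¹ * h).norm)
      else (if St (j, true) (g⁻¹ * h) then τ * z ^ ((lt (j, true))⁻¹ * (g⁻¹ * h)).norm else 0)

theorem Fv_step {z τ : ℂ} (hzt : z ^ 2 + τ ^ 2 = 1) (i : Fin 2) (h : FreeGroup (Fin 2)) :
    Fv z τ (lt (i, true) * h) = Uf z τ i (Fv z τ h) := by
  set t : Fin 2 × Bool := (i, true) with ht
  -- value at (t⁻¹, i)
  have hval : Fv z τ h (some ((lt t)⁻¹, i)) =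
      if St t (lt t * h) then 0 else - τ * z ^ (lt t * h).norm := by
    simp only [Fv, inv_inv]
    rw [← ht, if_pos (St_lt t)]
  have ecancel : (lt t)⁻¹ * (lt t * h) = h := by group
  funext o
  cases o with
  | none =>
    simp only [Uf]
    rw [← ht, hval]
    simp only [Fv]
    by_cases c : St t (lt t * h)
    · have h1 := norm_inv_mul_of_St c
      rw [ecancel] at h1
      rw [if_pos c, mul_zero, sub_zero, ← h1, pow_succ]; ring
    · have h1 := norm_inv_mul_of_not_St c
      rw [ecancel] at h1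
      rw [if_neg c, h1, pow_succ]
      linear_combination (-z ^ (lt t * h).norm) * hzt
  | some p =>
    obtain ⟨g, j⟩ := p
    simp only [Uf]
    rw [← ht]
    by_cases hgj : g = 1 ∧ j = i
    · obtain ⟨hg, hj⟩ := hgj
      subst hg hj
      rw [if_pos ⟨rfl, rfl⟩, hval]
      simp only [Fv, inv_one, one_mul]
      rw [← ht, if_neg (St_one t), ecancel]
      by_cases c : St t (lt t * h)
      · rw [if_pos c, if_pos c]; ring
      · have h1 := norm_inv_mul_of_not_St c
        rw [ecancel] at h1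
        rw [if_neg c, if_neg c, h1, pow_succ]; ring
    · rw [if_neg hgj]
      have e1 : ((lt t)⁻¹ * g)⁻¹ * h = g⁻¹ * (lt t * h) := by group
      have e2 : ((lt t)⁻¹ * g)⁻¹ = g⁻¹ * lt t := by group
      have e3 : St (j, true) (g⁻¹ * lt t) ↔ St (j, true) g⁻¹ := by
        by_cases g1 : g = 1
        · subst g1
          have hji : j ≠ i := fun hh => hgj ⟨rfl, hh⟩
          rw [inv_one, one_mul, St_lt_iff]
          constructor
          · intro hh
            rw [ht] at hh
            exact absurd (Prod.mk.inj hh).1 hji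
          · intro hh; exact absurd hh (St_one _)
        · by_cases g2 : g⁻¹ * lt t = 1
          · have g3 : g = lt t := inv_mul_eq_one.1 g2
            rw [g2, g3, lt_inv, St_lt_iff]
            constructor
            · intro hh; exact absurd hh (St_one _)
            · intro hh
              rw [ht] at hh
              simp [op] at hh
          · exact St_mul_lt _ _ (by simpa using g1) g2
      simp only [Fv]
      rw [e1, e2]
      simp only [e3]

theorem pir_step (θ : ℝ) (i : Fin 2) (k : FreeGroup (Fin 2)) :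
    (fun o => pir θ (lt (i, true) * k) e0 o) =
      Uf (Real.cos θ) (Real.sin θ) i (fun o => pir θ k e0 o) := by
  funext o
  have h : pir θ (lt (i, true) * k) = U θ i * pir θ k := by
    rw [(pir θ).map_mul, lt_true, pir_of]
  rw [h]
  change U θ i (pir θ k e0) o = _
  rw [U_coord]

/-- vacuum formula -/
theorem vac (θ : ℝ) (h : FreeGroup (Fin 2)) :
    (fun o => pir θ h e0 o) = Fv (Real.cos θ) (Real.sin θ) h := by
  have hzt : (Real.cos θ : ℂ) ^ 2 + (Real.sin θ : ℂ) ^ 2 = 1 := by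
    exact_mod_cast Real.cos_sq_add_sin_sq θ
  have main : ∀ L : List (Fin 2 × Bool), (fun o => pir θ (FreeGroup.mk L) e0 o) =
      Fv (Real.cos θ) (Real.sin θ) (FreeGroup.mk L) := by
    intro L
    induction L with
    | nil =>
      have h1 : (FreeGroup.mk [] : FreeGroup (Fin 2)) = 1 := rfl
      rw [h1, (pir θ).map_one]
      funext o
      change e0 o = _
      cases o with
      | none => rw [e0_none]; simp [Fv]
      | some p =>
        obtain ⟨g, j⟩ := p
        rw [e0_some]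
        simp only [Fv, mul_one]
        split_ifs <;> rfl
    | cons s L ih =>
      obtain ⟨i, b⟩ := s
      have h1 : (FreeGroup.mk ((i, b) :: L) : FreeGroup (Fin 2)) = lt (i, b) * FreeGroup.mk L := by
        unfold lt; rw [FreeGroup.mul_mk]; rfl
      rw [h1]
      cases b with
      | true => rw [Fv_step hzt, ← ih, pir_step]
      | false =>
        have h2 : lt (i, false) = (lt (i, true))⁻¹ := by rw [lt_inv]; rfl
        rw [h2]
        apply Uf_inj hzt i
        rw [← Fv_step hzt, ← pir_step, mul_inv_cancel_left]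
        exact ih
  have := main h.toWord
  rwa [FreeGroup.mk_toWord] at this

/-- norm continuity at zero -/
theorem uc_inv_tendsto {H : Type*} [NormedAddCommGroup H] [InnerProductSpace ℂ H]
    {V : ℝ → (H ≃ₗᵢ[ℂ] H)} {W : H ≃ₗᵢ[ℂ] H}
    (h : Tendsto (fun θ => uc (V θ)) (𝓝 0) (𝓝 (uc W))) :
    Tendsto (fun θ => uc (V θ)⁻¹) (𝓝 0) (𝓝 (uc W⁻¹)) := by
  rw [tendsto_iff_norm_sub_tendsto_zero] at h ⊢
  refine squeeze_zero (fun _ => norm_nonneg _) (fun θ => ?_) h
  have e1 : uc (V θ)⁻¹ - uc W⁻¹ = uc (V θ)⁻¹ * (uc W - uc (V θ)) * uc W⁻¹ := by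
    rw [mul_sub, sub_mul, ← uc_mul, ← uc_mul, ← uc_mul, ← uc_mul]
    rw [inv_mul_cancel, mul_assoc, mul_inv_cancel, one_mul, mul_one]
  rw [e1]
  calc ‖uc (V θ)⁻¹ * (uc W - uc (V θ)) * uc W⁻¹‖
      ≤ ‖uc (V θ)⁻¹ * (uc W - uc (V θ))‖ * ‖uc W⁻¹‖ := norm_mul_le _ _
    _ ≤ (‖uc (V θ)⁻¹‖ * ‖uc W - uc (V θ)‖) * ‖uc W⁻¹‖ := by
        gcongr; exact norm_mul_le _ _
    _ ≤ (1 * ‖uc W - uc (V θ)‖) * 1 := by
        gcongr
        · exact norm_uc_le _
        · exact norm_uc_le _
    _ = ‖uc (V θ) - uc W‖ := by rw [one_mul, mul_one, norm_sub_rev]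

theorem pir_tendsto (g : FreeGroup (Fin 2)) :
    Tendsto (fun θ => uc (pir θ g)) (𝓝 0) (𝓝 (uc (Lam (FreeGroup (Fin 2)) g))) := by
  induction g using FreeGroup.induction_on with
  | C1 =>
    have h1 : ∀ θ, uc (pir θ 1) = uc (Lam (FreeGroup (Fin 2)) 1) := by
      intro θ
      rw [(pir θ).map_one, (Lam (FreeGroup (Fin 2))).map_one]
    simp_rw [h1]
    exact tendsto_const_nhds
  | of i =>
    have h1 : ∀ θ, uc (pir θ (FreeGroup.of i)) =
        rotC e0 (fi i) (Real.cos θ) (Real.sin θ) * uc (Lam (FreeGroup (Fin 2)) (FreeGroup.of i)) := by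
      intro θ
      rw [pir_of]; rfl
    have h2 := (rotC_tendsto e0 (fi i)).mul_const (uc (Lam (FreeGroup (Fin 2)) (FreeGroup.of i)))
    rw [one_mul] at h2
    refine h2.congr (fun θ => ?_)
    rw [← h1]
  | inv_of i ih =>
    have := uc_inv_tendsto ih
    refine (this.congr (fun θ => ?_)).trans ?_
    · rw [(pir θ).map_inv]
    · rw [(Lam (FreeGroup (Fin 2))).map_inv]
  | mul x y hx hy =>
    have h := hx.mul hy
    rw [← uc_mul, ← (Lam (FreeGroup (Fin 2))).map_mul] at h
    refine h.congr (fun θ => ?_)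
    rw [← uc_mul, ← (pir θ).map_mul]

theorem rep_tendsto {b : FreeGroup (Fin 2) → ℂ} (hb : Summable fun g => ‖b g‖) :
    Tendsto (fun θ => rep (pir θ) b) (𝓝 0) (𝓝 (rep (Lam (FreeGroup (Fin 2))) b)) := by
  unfold rep
  refine tendsto_tsum_of_dominated_convergence hb (fun g => ?_) ?_
  · exact (pir_tendsto g).const_smul (b g)
  · refine Eventually.of_forall (fun θ g => ?_)
    rw [norm_smul]
    calc ‖b g‖ * ‖uc (pir θ g)‖ ≤ ‖b g‖ * 1 := by
          gcongr; exact norm_uc_le _
      _ = ‖b g‖ := mul_one _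

/-- coordinates of `rep (pir θ) c e0` -/
theorem rep_pir_coord {c : FreeGroup (Fin 2) → ℂ} (hc : Summable fun g => ‖c g‖) (θ : ℝ) (o : IX) :
    rep (pir θ) c e0 o = ∑' h, c h * Fv (Real.cos θ) (Real.sin θ) h o := by
  have h := rep_coord (pir θ) hc e0 o
  rw [← h.tsum_eq]
  congr 1
  ext g
  rw [← vac θ g]

theorem norm_Fv_some_le (θ : ℝ) (h g : FreeGroup (Fin 2)) (j : Fin 2) :
    ‖Fv (Real.cos θ) (Real.sin θ) h (some (g, j))‖ ≤ |Real.sin θ| := by
  have hz : ∀ n : ℕ, ‖(Real.cos θ : ℂ) ^ n‖ ≤ 1 := by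
    intro n
    rw [norm_pow, Complex.norm_real]
    exact pow_le_one₀ (norm_nonneg _) (Real.abs_cos_le_one θ)
  simp only [Fv]
  split_ifs
  · simp
  · rw [norm_mul, norm_neg, Complex.norm_real, Real.norm_eq_abs]
    calc |Real.sin θ| * _ ≤ |Real.sin θ| * 1 := by
          gcongr; exact hz _
      _ = _ := mul_one _
  · rw [norm_mul, Complex.norm_real, Real.norm_eq_abs]
    calc |Real.sin θ| * _ ≤ |Real.sin θ| * 1 := by
          gcongr; exact hz _
      _ = _ := mul_one _
  · simp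

/-- the derivative limit -/
theorem coord_tendsto {c : FreeGroup (Fin 2) → ℂ} (hc : Summable fun g => ‖c g‖)
    (h0 : ∑' g, c g = 0) (g : FreeGroup (Fin 2)) (j : Fin 2) :
    Tendsto (fun θ : ℝ => (Real.sin θ : ℂ)⁻¹ * rep (pir θ) c e0 (some (g, j))) (𝓝[>] 0)
      (𝓝 (D (j, true) c g)) := by
  rw [D_eq_chi _ hc h0]
  have hsin : ∀ᶠ θ : ℝ in 𝓝[>] 0, 0 < Real.sin θ := by
    have : Set.Ioo (0 : ℝ) Real.pi ∈ 𝓝[>] (0 : ℝ) := Ioo_mem_nhdsGT Real.pi_pos
    filter_upwards [this] with θ hθ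
    exact Real.sin_pos_of_mem_Ioo hθ
  have e1 : ∀ θ : ℝ, (Real.sin θ : ℂ)⁻¹ * rep (pir θ) c e0 (some (g, j)) =
      ∑' h, c h * ((Real.sin θ : ℂ)⁻¹ * Fv (Real.cos θ) (Real.sin θ) h (some (g, j))) := by
    intro θ
    rw [rep_pir_coord hc, ← tsum_mul_left]
    congr 1; ext h; ring
  simp_rw [e1]
  refine tendsto_tsum_of_dominated_convergence hc (fun h => ?_) ?_
  · rw [mul_comm (chi _ _ _)]
    refine Tendsto.const_mul _ ?_
    have hcos : Tendsto (fun θ : ℝ => (Real.cos θ : ℂ)) (𝓝[>] 0) (𝓝 1) := by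
      have h1 : Tendsto (fun θ : ℝ => (Real.cos θ : ℂ)) (𝓝 0) (𝓝 ((Real.cos 0 : ℝ) : ℂ)) := by
        have : Continuous fun θ : ℝ => (Real.cos θ : ℂ) :=
          Complex.continuous_ofReal.comp Real.continuous_cos
        exact this.tendsto 0
      rw [Real.cos_zero, Complex.ofReal_one] at h1
      exact h1.mono_left nhdsWithin_le_nhds
    have hpow : ∀ n : ℕ, Tendsto (fun θ : ℝ => (Real.cos θ : ℂ) ^ n) (𝓝[>] 0) (𝓝 1) := by
      intro n
      have := hcos.pow n
      rwa [one_pow] at this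
    have cancel : ∀ w : ℝ → ℂ, Tendsto w (𝓝[>] 0) (𝓝 1) →
        Tendsto (fun θ : ℝ => (Real.sin θ : ℂ)⁻¹ * (Real.sin θ * w θ)) (𝓝[>] 0) (𝓝 1) := by
      intro w hw
      refine hw.congr' ?_
      filter_upwards [hsin] with θ hθ
      have : (Real.sin θ : ℂ) ≠ 0 := by exact_mod_cast hθ.ne'
      field_simp
    simp only [Fv, chi, ind]
    by_cases c1 : St (j, true) g⁻¹
    · by_cases c2 : St (j, true) (g⁻¹ * h)
      · simp only [c1, c2, if_true, mul_zero, sub_self]
        exact tendsto_const_nhds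
      · simp only [c1, c2, if_true, if_false, zero_sub]
        have h1 := (cancel _ (hpow (g⁻¹ * h).norm)).neg
        refine h1.congr (fun θ => ?_)
        ring
    · by_cases c2 : St (j, true) (g⁻¹ * h)
      · simp only [c1, c2, if_true, if_false, sub_zero]
        exact cancel _ (hpow _)
      · simp only [c1, c2, if_false, mul_zero, sub_self]
        exact tendsto_const_nhds
  · filter_upwards [hsin] with θ hθ
    intro h
    rw [norm_mul, norm_mul, norm_inv, Complex.norm_real, Real.norm_eq_abs]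
    have h1 := norm_Fv_some_le θ h g j
    have h2 : |Real.sin θ|⁻¹ * ‖Fv (Real.cos θ) (Real.sin θ) h (some (g, j))‖ ≤ 1 := by
      rw [inv_mul_le_iff₀ (abs_pos.2 hθ.ne'), mul_one]
      exact h1
    calc ‖c h‖ * (|Real.sin θ|⁻¹ * ‖Fv (Real.cos θ) (Real.sin θ) h (some (g, j))‖) ≤ ‖c h‖ * 1 := by
          gcongr
      _ = ‖c h‖ := mul_one _

end Pool.Agent.Lib_MP_11aa79_an
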