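import Mathlib
import Pool.Agent.Lib_MP_11aa79_an.DirFin

namespace Pool.Agent.Lib_MP_11aa79_an

open FreeGroup Filter Topology
open scoped Classical

theorem hasSum_aa_smul {V : Type*} [AddCommGroup V] [Module ℂ V] [TopologicalSpace V]
    [IsTopologicalAddGroup V]
    (X Y : Fin 2 × Bool) (hXY : X ≠ Y) (l : ℂ) (F : FreeGroup (Fin 2) → V) :
    HasSum (fun g => aa X Y l g • F g) (F (lt X) + l • F (lt Y) - (1 + l) • F 1) := by
  have h1 : lt X ≠ lt Y := fun h => hXY (lt_inj h)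
  have hx : lt X ≠ 1 := lt_ne_one X
  have hy : lt Y ≠ 1 := lt_ne_one Y
  have s1 : HasSum (fun g => if g = lt X then F (lt X) else 0) (F (lt X)) := hasSum_ite_eq _ _
  have s2 : HasSum (fun g => if g = lt Y then l • F (lt Y) else 0) (l • F (lt Y)) :=
    hasSum_ite_eq _ _
  have s3 : HasSum (fun g : FreeGroup (Fin 2) => if g = 1 then (1 + l) • F 1 else 0)
    ((1 + l) • F 1) := hasSum_ite_eq _ _
  have hs := (s1.add s2).sub s3
  have hfun : (fun g => aa X Y l g • F g) = fun g : FreeGroup (Fin 2) =>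
      (if g = lt X then F (lt X) else 0) + (if g = lt Y then l • F (lt Y) else 0) -
        (if g = 1 then (1 + l) • F 1 else 0) := by
    ext g
    unfold aa
    by_cases e1 : g = lt X
    · subst e1
      simp [h1, hx]
    · by_cases e2 : g = lt Y
      · subst e2
        simp [h1.symm, hy]
      · by_cases e3 : g = 1
        · subst e3
          simp [hx.symm, hy.symm]
          module
        · simp [e1, e2, e3]
  rw [hfun]; exact hs

theorem summable_aa (X Y : Fin 2 × Bool) (l : ℂ) : Summable fun g => ‖aa X Y l g‖ := by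
  refine summable_of_hasFiniteSupport ?_
  refine Set.Finite.subset (s := {lt X, lt Y, 1}) (by simp) ?_
  intro g hg
  by_contra h
  apply hg
  simp only [Set.mem_insert_iff, Set.mem_singleton_iff, not_or] at h
  change ‖aa X Y l g‖ = 0
  unfold aa
  rw [if_neg h.1, if_neg h.2.1, if_neg h.2.2, norm_zero]

theorem tsum_aa_zero (X Y : Fin 2 × Bool) (hXY : X ≠ Y) (l : ℂ) : ∑' g, aa X Y l g = 0 := by
  have h := tsum_aa X Y hXY l (fun _ => 1)
  simp only [one_mul] at h
  rw [h.tsum_eq]; ring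

theorem rep_aa {H : Type*} [NormedAddCommGroup H] [InnerProductSpace ℂ H] [CompleteSpace H]
    (π : FreeGroup (Fin 2) →* (H ≃ₗᵢ[ℂ] H)) (X Y : Fin 2 × Bool) (hXY : X ≠ Y) (l : ℂ) :
    rep π (aa X Y l) = uc (π (lt X)) + l • uc (π (lt Y)) - (1 + l) • (1 : H →L[ℂ] H) := by
  have h := hasSum_aa_smul X Y hXY l (fun g => uc (π g))
  unfold rep
  rw [h.tsum_eq, π.map_one, uc_one]

/-- multiplication by an indicator function -/
noncomputable def mi {ι : Type*} (P : ι → Prop) : L2 ι →L[ℂ] L2 ι :=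
  LinearMap.mkContinuous
    { toFun := fun f => ⟨fun x => if P x then f x else 0, (memL2_iff _).2 (by
        refine Summable.of_nonneg_of_le (fun _ => by positivity) (fun x => ?_) (L2_summable f)
        split_ifs
        · exact le_refl _
        · simp)⟩
      map_add' := fun f g => by
        ext x
        change (if P x then (f x + g x) else 0) =
          (if P x then f x else 0) + (if P x then g x else 0)
        split_ifs <;> simp
      map_smul' := fun c f => by
        ext x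
        change (if P x then (c * f x) else 0) = c * (if P x then f x else 0)
        split_ifs <;> simp } 1 (by
    intro f
    rw [one_mul]
    refine (pow_le_pow_iff_left₀ (norm_nonneg _) (norm_nonneg _) two_ne_zero).1 ?_
    rw [L2_norm_sq, L2_norm_sq]
    refine Summable.tsum_le_tsum (fun x => ?_) (L2_summable _) (L2_summable f)
    change ‖(if P x then f x else 0)‖ ^ 2 ≤ ‖f x‖ ^ 2
    split_ifs
    · exact le_refl _
    · simp)

theorem mi_apply {ι : Type*} (P : ι → Prop) (f : L2 ι) (x : ι) :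
    mi P f x = if P x then f x else 0 := rfl

theorem ring_aux {R : Type*} [Ring R] (x y : R) : (1 - x) * (1 - y) = 1 - x - y + x * y := by
  noncomm_ring

/-- the operator is invertible -/
theorem isUnit_rep (X Y : Fin 2 × Bool) (hX : X.1 = 0) (hY : Y.1 = 1) (l : ℂ)
    (hl : 1 + ‖l‖ ^ 2 < ‖1 + l‖ ^ 2) :
    IsUnit (rep (lam (FreeGroup (Fin 2))) (aa X Y l)) := by
  have hXY : X ≠ Y := by
    intro h; rw [h, hY] at hX; exact absurd hX (by decide)
  have hXoY : X ≠ op Y := by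
    intro h; rw [h] at hX; simp [op, hY] at hX
  have hYoX : Y ≠ op X := by
    intro h; rw [h] at hY; simp [op, hX] at hY
  have hoXoY : op X ≠ op Y := by
    intro h; apply hXY; rw [← op_op X, h, op_op]
  rw [rep_aa _ X Y hXY]
  set TX := uc (lam (FreeGroup (Fin 2)) (lt X)) with hTX
  set TY := uc (lam (FreeGroup (Fin 2)) (lt Y)) with hTY
  have TXa : ∀ f x, TX f x = f ((lt X)⁻¹ * x) := fun f x => lam_apply _ _ _
  have TYa : ∀ f x, TY f x = f ((lt Y)⁻¹ * x) := fun f x => lam_apply _ _ _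
  set μ : ℂ := 1 + l with hμ
  have hμ0 : μ ≠ 0 := by
    intro h
    rw [h, norm_zero] at hl
    nlinarith [sq_nonneg ‖l‖]
  set Ap : L2 (FreeGroup (Fin 2)) →L[ℂ] L2 (FreeGroup (Fin 2)) :=
    mi (St X) * TX + l • (mi (St Y) * TY) with hAp
  set Am : L2 (FreeGroup (Fin 2)) →L[ℂ] L2 (FreeGroup (Fin 2)) :=
    mi (fun u => ¬ St X u) * TX + l • (mi (fun u => ¬ St Y u) * TY) with hAm
  have Apa : ∀ f x, Ap f x = (if St X x then f ((lt X)⁻¹ * x) else 0) +
      l * (if St Y x then f ((lt Y)⁻¹ * x) else 0) := by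
    intro f x
    change mi (St X) (TX f) x + l * mi (St Y) (TY f) x = _
    rw [mi_apply, mi_apply, TXa, TYa]
  have Ama : ∀ f x, Am f x = (if St X x then 0 else f ((lt X)⁻¹ * x)) +
      l * (if St Y x then 0 else f ((lt Y)⁻¹ * x)) := by
    intro f x
    change mi (fun u => ¬ St X u) (TX f) x + l * mi (fun u => ¬ St Y u) (TY f) x = _
    rw [mi_apply, mi_apply, TXa, TYa]
    by_cases c1 : St X x <;> by_cases c2 : St Y x <;> simp [c1, c2]
  have hsum : Am + Ap = TX + l • TY := by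
    ext f x
    change Am f x + Ap f x = TX f x + l * TY f x
    rw [Apa, Ama, TXa, TYa]
    split_ifs <;> simp_all <;> ring
  have hprod : Am * Ap = 0 := by
    ext f x
    change Am (Ap f) x = 0
    rw [Ama]
    have e1 : (if St X x then 0 else (Ap f) ((lt X)⁻¹ * x)) = 0 := by
      split_ifs with h
      · rfl
      · have h1 := (St_inv_mul X x).2 h
        rw [Apa, if_neg (fun h2 => op_ne X (St_unique h1 h2)),
          if_neg (fun h2 => hYoX (St_unique h2 h1))]
        simp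
    have e2 : (if St Y x then 0 else (Ap f) ((lt Y)⁻¹ * x)) = 0 := by
      split_ifs with h
      · rfl
      · have h1 := (St_inv_mul Y x).2 h
        rw [Apa, if_neg (fun h2 => hXoY (St_unique h2 h1)),
          if_neg (fun h2 => op_ne Y (St_unique h1 h2))]
        simp
    rw [e1, e2]; simp
  set R : ℝ := Real.sqrt (1 + ‖l‖ ^ 2) with hR
  have hR2 : R ^ 2 = 1 + ‖l‖ ^ 2 := Real.sq_sqrt (by positivity)
  have hR0 : 0 ≤ R := Real.sqrt_nonneg _
  have hRμ : R < ‖μ‖ := by
    have : R ^ 2 < ‖μ‖ ^ 2 := by rw [hR2]; exact hl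
    exact lt_of_pow_lt_pow_left₀ 2 (norm_nonneg _) this
  have nAp : ‖Ap‖ ≤ R := by
    refine ContinuousLinearMap.opNorm_le_bound _ hR0 (fun f => ?_)
    refine (pow_le_pow_iff_left₀ (norm_nonneg _) (by positivity) two_ne_zero).1 ?_
    rw [mul_pow, hR2, L2_norm_sq, L2_norm_sq]
    have s := L2_summable f
    have s1 := summable_mulLeft s (lt X)⁻¹
    have s2 := summable_mulLeft s (lt Y)⁻¹
    have t1 : ∑' x, ‖f ((lt X)⁻¹ * x)‖ ^ 2 = ∑' x, ‖f x‖ ^ 2 :=
      (Equiv.mulLeft (lt X)⁻¹).tsum_eq (fun x => ‖f x‖ ^ 2)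
    have t2 : ∑' x, ‖f ((lt Y)⁻¹ * x)‖ ^ 2 = ∑' x, ‖f x‖ ^ 2 :=
      (Equiv.mulLeft (lt Y)⁻¹).tsum_eq (fun x => ‖f x‖ ^ 2)
    have s3 : Summable fun x => ‖f ((lt X)⁻¹ * x)‖ ^ 2 + ‖l‖ ^ 2 * ‖f ((lt Y)⁻¹ * x)‖ ^ 2 :=
      s1.add (s2.mul_left _)
    calc ∑' x, ‖Ap f x‖ ^ 2 ≤ ∑' x, (‖f ((lt X)⁻¹ * x)‖ ^ 2 +
          ‖l‖ ^ 2 * ‖f ((lt Y)⁻¹ * x)‖ ^ 2) := by
          refine Summable.tsum_le_tsum (fun x => ?_) (L2_summable _) s3
          rw [Apa]
          have p1 : 0 ≤ ‖f ((lt X)⁻¹ * x)‖ ^ 2 := by positivity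
          have p2 : 0 ≤ ‖l‖ ^ 2 * ‖f ((lt Y)⁻¹ * x)‖ ^ 2 := by positivity
          by_cases c1 : St X x
          · rw [if_pos c1, if_neg (fun h => hXY (St_unique c1 h)), mul_zero, add_zero]
            linarith
          · rw [if_neg c1]
            by_cases c2 : St Y x
            · rw [if_pos c2, zero_add, norm_mul, mul_pow]; linarith
            · rw [if_neg c2, mul_zero, add_zero, norm_zero]; nlinarith
      _ = (1 + ‖l‖ ^ 2) * ∑' x, ‖f x‖ ^ 2 := by
          rw [s1.tsum_add (s2.mul_left _), tsum_mul_left, t1, t2]; ring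
  have nAm : ‖Am‖ ≤ R := by
    refine ContinuousLinearMap.opNorm_le_bound _ hR0 (fun f => ?_)
    refine (pow_le_pow_iff_left₀ (norm_nonneg _) (by positivity) two_ne_zero).1 ?_
    rw [mul_pow, hR2, L2_norm_sq, L2_norm_sq]
    have s := L2_summable f
    set fX : FreeGroup (Fin 2) → ℝ := fun v => if St (op X) v then ‖f v‖ ^ 2 else 0 with hfX
    set fY : FreeGroup (Fin 2) → ℝ := fun v => if St (op Y) v then ‖f v‖ ^ 2 else 0 with hfY
    have sX : Summable fX := by
      refine Summable.of_nonneg_of_le (fun x => ?_) (fun x => ?_) s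
      · simp only [hfX]; split_ifs <;> positivity
      · simp only [hfX]; split_ifs
        · exact le_refl _
        · positivity
    have sY : Summable fY := by
      refine Summable.of_nonneg_of_le (fun x => ?_) (fun x => ?_) s
      · simp only [hfY]; split_ifs <;> positivity
      · simp only [hfY]; split_ifs
        · exact le_refl _
        · positivity
    have s1 := summable_mulLeft sX (lt X)⁻¹
    have s2 := summable_mulLeft sY (lt Y)⁻¹
    have t1 : ∑' x, fX ((lt X)⁻¹ * x) = ∑' x, fX x := (Equiv.mulLeft (lt X)⁻¹).tsum_eq fX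
    have t2 : ∑' x, fY ((lt Y)⁻¹ * x) = ∑' x, fY x := (Equiv.mulLeft (lt Y)⁻¹).tsum_eq fY
    calc ∑' x, ‖Am f x‖ ^ 2 ≤ ∑' x, ((1 + ‖l‖ ^ 2) * (fX ((lt X)⁻¹ * x) +
          fY ((lt Y)⁻¹ * x))) := by
          refine Summable.tsum_le_tsum (fun x => ?_) (L2_summable _) ((s1.add s2).mul_left _)
          rw [Ama]
          have key : ∀ (s : Fin 2 × Bool) (v : FreeGroup (Fin 2)),
              ‖(if St s v then 0 else f ((lt s)⁻¹ * v))‖ ^ 2 =
              if St (op s) ((lt s)⁻¹ * v) then ‖f ((lt s)⁻¹ * v)‖ ^ 2 else 0 := by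
            intro s v
            by_cases h : St s v
            · rw [if_pos h, if_neg (fun h2 => ((St_inv_mul s v).1 h2) h)]; simp
            · rw [if_neg h, if_pos ((St_inv_mul s v).2 h)]
          simp only [hfX, hfY]
          rw [← key X x, ← key Y x]
          set p := (if St X x then 0 else f ((lt X)⁻¹ * x)) with hp
          set q := (if St Y x then 0 else f ((lt Y)⁻¹ * x)) with hq
          have e1 : ‖p + l * q‖ ≤ ‖p‖ + ‖l‖ * ‖q‖ := by
            refine (norm_add_le _ _).trans ?_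
            rw [norm_mul]
          have e2 : ‖p + l * q‖ ^ 2 ≤ (‖p‖ + ‖l‖ * ‖q‖) ^ 2 := by gcongr
          nlinarith [sq_nonneg (‖l‖ * ‖p‖ - ‖q‖)]
      _ = (1 + ‖l‖ ^ 2) * ∑' x, (fX x + fY x) := by
          rw [tsum_mul_left, s1.tsum_add s2, t1, t2, sX.tsum_add sY]
      _ ≤ (1 + ‖l‖ ^ 2) * ∑' x, ‖f x‖ ^ 2 := by
          refine mul_le_mul_of_nonneg_left ?_ (by positivity)
          refine Summable.tsum_le_tsum (fun x => ?_) (sX.add sY) s
          simp only [hfX, hfY]
          have p1 : 0 ≤ ‖f x‖ ^ 2 := by positivity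
          by_cases c1 : St (op X) x
          · rw [if_pos c1, if_neg (fun h => hoXoY (St_unique c1 h))]; linarith
          · rw [if_neg c1]
            split_ifs <;> linarith
  have small : ∀ A : L2 (FreeGroup (Fin 2)) →L[ℂ] L2 (FreeGroup (Fin 2)), ‖A‖ ≤ R →
      IsUnit (1 - μ⁻¹ • A) := by
    intro A hA
    apply isUnit_one_sub_of_norm_lt_one
    rw [norm_smul, norm_inv]
    have hμp : 0 < ‖μ‖ := norm_pos_iff.2 hμ0
    rw [inv_mul_lt_iff₀ hμp, mul_one]
    exact lt_of_le_of_lt hA hRμ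
  have hu := (small Am nAm).mul (small Ap nAp)
  have e1 : (1 - μ⁻¹ • Am) * (1 - μ⁻¹ • Ap) = 1 - μ⁻¹ • (TX + l • TY) := by
    rw [← hsum]
    have h1 : (μ⁻¹ • Am) * (μ⁻¹ • Ap) = 0 := by rw [smul_mul_smul_comm, hprod, smul_zero]
    have h2 : (1 - μ⁻¹ • Am) * (1 - μ⁻¹ • Ap) =
        1 - μ⁻¹ • Am - μ⁻¹ • Ap + (μ⁻¹ • Am) * (μ⁻¹ • Ap) := ring_aux _ _
    have h3 : μ⁻¹ • (Am + Ap) = μ⁻¹ • Am + μ⁻¹ • Ap := smul_add _ _ _
    rw [h2, h1, h3, add_zero, sub_sub]
  rw [e1] at hu
  have e2 : TX + l • TY - μ • (1 : L2 (FreeGroup (Fin 2)) →L[ℂ] L2 (FreeGroup (Fin 2))) =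
      (-μ) • (1 - μ⁻¹ • (TX + l • TY)) := by
    rw [smul_sub, smul_smul]
    have : -μ * μ⁻¹ = -1 := by field_simp
    rw [this]
    module
  rw [e2]
  have := hu.smul (Units.mk0 (-μ) (neg_ne_zero.2 hμ0))
  exact this

end Pool.Agent.Lib_MP_11aa79_an
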