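import Mathlib
import Pool.Agent.Lib_MP_11aa79_an.Fox

namespace Pool.Agent.Lib_MP_11aa79_an

open FreeGroup
open scoped Classical

theorem norm_three (x y z : ℂ) : ‖x‖ ≤ ‖x + y + z‖ + ‖y‖ + ‖z‖ := by
  have h : x = (x + y + z) - y - z := by ring
  calc ‖x‖ = ‖(x + y + z) - y - z‖ := by rw [← h]
    _ ≤ ‖(x + y + z) - y‖ + ‖z‖ := norm_sub_le _ _
    _ ≤ ‖x + y + z‖ + ‖y‖ + ‖z‖ := by
        gcongr; exact norm_sub_le _ _

/-- sign function used in the gain inequality -/
noncomputable def sg (P : Prop) : ℝ := if P then 1 else -1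

theorem abs_sg (P : Prop) : |sg P| = 1 := by
  unfold sg; split_ifs <;> simp

theorem summable_sg_mul {ι : Type*} (P : ι → Prop) {f : ι → ℝ} (hf : Summable f)
    (h0 : ∀ i, 0 ≤ f i) : Summable fun i => sg (P i) * f i := by
  refine Summable.of_norm ?_
  refine hf.congr (fun i => ?_)
  rw [norm_mul, Real.norm_eq_abs, abs_sg, one_mul, Real.norm_eq_abs, abs_of_nonneg (h0 i)]

/-- gain inequality -/
theorem gain (X Y : Fin 2 × Bool) (hX : X.1 = 0) (hY : Y.1 = 1) (l : ℂ) (κ : ℝ)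
    (h1 : κ + 1 ≤ ‖l‖ + ‖1 + l‖) (h2 : κ + ‖l‖ ≤ 1 + ‖1 + l‖) (h3 : κ + ‖1 + l‖ ≤ 1 + ‖l‖)
    (p : FreeGroup (Fin 2) → ℂ) (hp : Summable (fun g => ‖p g‖)) :
    κ * ∑' g, ‖p g‖ ≤
      ∑' v, ‖p (v * (lt X)⁻¹) + l * p (v * (lt Y)⁻¹) - (1 + l) * p v‖ := by
  have hXY : X ≠ Y := by
    intro h; rw [h, hY] at hX; exact absurd hX (by decide)
  have hXoY : X ≠ op Y := by
    intro h; rw [h] at hX; simp [op, hY] at hX
  have hYoX : Y ≠ op X := by
    intro h; rw [h] at hY; simp [op, hX] at hY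
  have hoXoY : op X ≠ op Y := by
    intro h; apply hXY; rw [← op_op X, h, op_op]
  set eX : FreeGroup (Fin 2) → ℝ := fun v => sg (St (op X) v⁻¹) with heX
  set eY : FreeGroup (Fin 2) → ℝ := fun v => sg (St (op Y) v⁻¹) with heY
  set e0 : FreeGroup (Fin 2) → ℝ := fun v => sg (St X v⁻¹ ∨ St Y v⁻¹) with he0
  have hpX : Summable fun v => ‖p (v * (lt X)⁻¹)‖ := summable_mulRight hp _
  have hpY : Summable fun v => ‖p (v * (lt Y)⁻¹)‖ := summable_mulRight hp _
  -- pointwise
  have pw : ∀ v, eX v * ‖p (v * (lt X)⁻¹)‖ + ‖l‖ * (eY v * ‖p (v * (lt Y)⁻¹)‖) +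
      ‖1 + l‖ * (e0 v * ‖p v‖) ≤
      ‖p (v * (lt X)⁻¹) + l * p (v * (lt Y)⁻¹) - (1 + l) * p v‖ := by
    intro v
    set a1 := p (v * (lt X)⁻¹) with ha1
    set a2 := p (v * (lt Y)⁻¹) with ha2
    set a3 := p v with ha3
    have n1 : 0 ≤ ‖a1‖ := norm_nonneg _
    have n2 : 0 ≤ ‖l‖ * ‖a2‖ := by positivity
    have n3 : 0 ≤ ‖1 + l‖ * ‖a3‖ := by positivity
    have n4 : 0 ≤ ‖a1 + l * a2 - (1 + l) * a3‖ := norm_nonneg _
    have t1 := norm_three a1 (l * a2) (-((1 + l) * a3))
    have t2 := norm_three (l * a2) a1 (-((1 + l) * a3))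
    have t3 := norm_three (-((1 + l) * a3)) a1 (l * a2)
    have r1 : a1 + l * a2 + -((1 + l) * a3) = a1 + l * a2 - (1 + l) * a3 := by ring
    have r2 : l * a2 + a1 + -((1 + l) * a3) = a1 + l * a2 - (1 + l) * a3 := by ring
    have r3 : -((1 + l) * a3) + a1 + l * a2 = a1 + l * a2 - (1 + l) * a3 := by ring
    rw [r1, norm_neg, norm_mul, norm_mul] at t1
    rw [r2, norm_neg, norm_mul, norm_mul] at t2
    rw [r3, norm_neg, norm_mul, norm_mul] at t3
    simp only [heX, heY, he0, sg]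
    by_cases c1 : St (op X) v⁻¹
    · have c2 : ¬ St (op Y) v⁻¹ := fun h => hoXoY (St_unique c1 h)
      have c3 : ¬ (St X v⁻¹ ∨ St Y v⁻¹) := by
        rintro (h | h)
        · exact (op_ne X) (St_unique c1 h)
        · exact hYoX (St_unique h c1)
      rw [if_pos c1, if_neg c2, if_neg c3]
      linarith
    · by_cases c2 : St (op Y) v⁻¹
      · have c3 : ¬ (St X v⁻¹ ∨ St Y v⁻¹) := by
          rintro (h | h)
          · exact hXoY (St_unique h c2)
          · exact (op_ne Y) (St_unique c2 h)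
        rw [if_neg c1, if_pos c2, if_neg c3]
        linarith
      · rw [if_neg c1, if_neg c2]
        by_cases c3 : (St X v⁻¹ ∨ St Y v⁻¹)
        · rw [if_pos c3]; linarith
        · rw [if_neg c3]; linarith
  have sX : Summable fun v => eX v * ‖p (v * (lt X)⁻¹)‖ :=
    summable_sg_mul _ hpX (fun _ => norm_nonneg _)
  have sY : Summable fun v => eY v * ‖p (v * (lt Y)⁻¹)‖ :=
    summable_sg_mul _ hpY (fun _ => norm_nonneg _)
  have s0 : Summable fun v => e0 v * ‖p v‖ :=
    summable_sg_mul _ hp (fun _ => norm_nonneg _)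
  have sR : Summable fun v => ‖p (v * (lt X)⁻¹) + l * p (v * (lt Y)⁻¹) - (1 + l) * p v‖ := by
    refine Summable.of_nonneg_of_le (fun _ => norm_nonneg _) (fun v => ?_)
      ((hpX.add (hpY.mul_left ‖l‖)).add (hp.mul_left ‖1 + l‖))
    refine (norm_sub_le _ _).trans ?_
    rw [norm_mul]
    gcongr
    refine (norm_add_le _ _).trans ?_
    rw [norm_mul]
  have sL : Summable fun v => eX v * ‖p (v * (lt X)⁻¹)‖ + ‖l‖ * (eY v * ‖p (v * (lt Y)⁻¹)‖) +
      ‖1 + l‖ * (e0 v * ‖p v‖) := (sX.add (sY.mul_left _)).add (s0.mul_left _)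
  refine le_trans ?_ (sL.tsum_le_tsum pw sR)
  rw [(sX.add (sY.mul_left _)).tsum_add (s0.mul_left _), sX.tsum_add (sY.mul_left _),
    tsum_mul_left, tsum_mul_left]
  -- reindex
  have qX : ∑' v, eX v * ‖p (v * (lt X)⁻¹)‖ = ∑' h, eX (h * lt X) * ‖p h‖ := by
    rw [← (Equiv.mulRight (lt X)).tsum_eq]
    congr 1; ext h; simp
  have qY : ∑' v, eY v * ‖p (v * (lt Y)⁻¹)‖ = ∑' h, eY (h * lt Y) * ‖p h‖ := by
    rw [← (Equiv.mulRight (lt Y)).tsum_eq]
    congr 1; ext h; simp
  have s1 : Summable fun h => eX (h * lt X) * ‖p h‖ :=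
    summable_sg_mul _ hp (fun _ => norm_nonneg _)
  have s2 : Summable fun h => eY (h * lt Y) * ‖p h‖ :=
    summable_sg_mul _ hp (fun _ => norm_nonneg _)
  rw [qX, qY, ← tsum_mul_left, ← tsum_mul_left, ← tsum_mul_left,
    ← s1.tsum_add (s2.mul_left _), ← (s1.add (s2.mul_left _)).tsum_add (s0.mul_left _)]
  refine (hp.mul_left κ).tsum_le_tsum (fun h => ?_)
    ((s1.add (s2.mul_left _)).add (s0.mul_left _))
  have k1 : eX (h * lt X) = sg (¬ St X h⁻¹) := by
    simp only [heX]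
    rw [mul_inv_rev]
    congr 1
    exact propext (St_inv_mul X h⁻¹)
  have k2 : eY (h * lt Y) = sg (¬ St Y h⁻¹) := by
    simp only [heY]
    rw [mul_inv_rev]
    congr 1
    exact propext (St_inv_mul Y h⁻¹)
  rw [k1, k2]
  have hn : 0 ≤ ‖p h‖ := norm_nonneg _
  have key : κ ≤ sg (¬ St X h⁻¹) + ‖l‖ * sg (¬ St Y h⁻¹) + ‖1 + l‖ * e0 h := by
    simp only [he0, sg]
    by_cases c1 : St X h⁻¹
    · have c2 : ¬ St Y h⁻¹ := fun h => hXY (St_unique c1 h)
      simp only [c1, c2, not_true, not_false_eq_true, true_or, if_true, if_false]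
      linarith
    · by_cases c2 : St Y h⁻¹
      · simp only [c1, c2, not_true, not_false_eq_true, or_true, if_true, if_false]
        linarith
      · simp only [c1, c2, not_false_eq_true, or_false, if_true, if_false]
        linarith
  calc κ * ‖p h‖ ≤ (sg (¬ St X h⁻¹) + ‖l‖ * sg (¬ St Y h⁻¹) + ‖1 + l‖ * e0 h) * ‖p h‖ := by
        gcongr
    _ = _ := by ring

theorem norm_mul_lt_le (v : FreeGroup (Fin 2)) (s : Fin 2 × Bool) :
    (v * (lt s)⁻¹).norm ≤ v.norm + 1 := by
  refine (FreeGroup.norm_mul_le _ _).trans ?_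
  rw [FreeGroup.norm_inv_eq, norm_lt]

theorem le_norm_mul_lt (v : FreeGroup (Fin 2)) (s : Fin 2 × Bool) :
    v.norm ≤ (v * (lt s)⁻¹).norm + 1 := by
  have h : v = (v * (lt s)⁻¹) * lt s := by group
  have h2 := FreeGroup.norm_mul_le (v * (lt s)⁻¹) (lt s)
  rw [← h, norm_lt] at h2
  exact h2

/-- the nice case -/
theorem nice (X Y : Fin 2 × Bool) (hX : X.1 = 0) (hY : Y.1 = 1) (l : ℂ) (κ : ℝ) (hκ : 0 < κ)
    (h1 : κ + 1 ≤ ‖l‖ + ‖1 + l‖) (h2 : κ + ‖l‖ ≤ 1 + ‖1 + l‖) (h3 : κ + ‖1 + l‖ ≤ 1 + ‖l‖)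
    (b c : FreeGroup (Fin 2) → ℂ) (hb : Summable fun g => ‖b g‖) (hc : Summable fun g => ‖c g‖)
    (hb0 : ∑' g, b g = 0) (hc0 : ∑' g, c g = 0) (hconv : ∀ x, aa X Y l x = conv b c x)
    (hinj : ∀ f : FreeGroup (Fin 2) → ℂ, Summable (fun g => ‖f g‖ ^ 2) →
      (∀ x, conv b f x = 0) → ∀ x, f x = 0)
    (hp : Summable fun g => ‖D X c g‖ ^ 2) (hq : Summable fun g => ‖D Y c g‖ ^ 2) : False := by
  have hfun : conv b c = aa X Y l := funext (fun x => (hconv x).symm)
  set p := D X c with hpdef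
  set q := D Y c with hqdef
  have hbp : ∀ g, conv b p g = if g = 1 then 1 else 0 := by
    intro g
    rw [hpdef, ← D_conv X hb hc g, hfun]
    exact (D_aa X Y hX hY l g).1
  have hbq : ∀ g, conv b q g = if g = 1 then l else 0 := by
    intro g
    rw [hqdef, ← D_conv Y hb hc g, hfun]
    exact (D_aa X Y hX hY l g).2
  -- q = l p
  have sbd : ∀ (t : Fin 2 × Bool) (x : FreeGroup (Fin 2)),
      Summable fun g => b g * D t c (g⁻¹ * x) := by
    intro t x
    refine Summable.of_norm ?_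
    refine Summable.of_nonneg_of_le (fun _ => norm_nonneg _) (fun g => ?_)
      (hb.mul_right (∑' h, ‖c h‖))
    rw [norm_mul]
    gcongr
    exact norm_D_le t hc _
  have hql : ∀ x, q x = l * p x := by
    have := hinj (fun g => q g - l * p g) ?_ ?_
    · intro x; have := this x; linear_combination this
    · have hs : Summable fun g => 2 * ‖q g‖ ^ 2 + 2 * ‖l‖ ^ 2 * ‖p g‖ ^ 2 :=
        (hq.mul_left 2).add (hp.mul_left _)
      refine Summable.of_nonneg_of_le (fun _ => by positivity) (fun g => ?_) hs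
      have e1 : ‖q g - l * p g‖ ≤ ‖q g‖ + ‖l‖ * ‖p g‖ := by
        refine (norm_sub_le _ _).trans ?_
        rw [norm_mul]
      have e2 : ‖q g - l * p g‖ ^ 2 ≤ (‖q g‖ + ‖l‖ * ‖p g‖) ^ 2 := by gcongr
      nlinarith [sq_nonneg (‖q g‖ - ‖l‖ * ‖p g‖)]
    · intro x
      have : conv b (fun g => q g - l * p g) x = conv b q x - l * conv b p x := by
        unfold conv
        rw [← tsum_mul_left, ← (sbd Y x).tsum_sub ((sbd X x).mul_left l)]
        congr 1; ext g; ring
      rw [this, hbp, hbq]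
      split_ifs <;> ring
  have hcp : ∀ v, c v = p (v * (lt X)⁻¹) + l * p (v * (lt Y)⁻¹) - (1 + l) * p v := by
    intro v
    have := fund X Y hX hY hc hc0 v
    rw [← hpdef, ← hqdef, hql, hql] at this
    rw [this]; ring
  set C := ∑' h, ‖c h‖ with hC
  have hC0 : 0 ≤ C := tsum_nonneg (fun _ => norm_nonneg _)
  -- truncations
  have main : ∀ n : ℕ, κ * ∑' g, (if g.norm ≤ n then ‖p g‖ else 0) ≤
      C + (1 + ‖l‖ + ‖1 + l‖) * (C + C) := by
    intro n
    set pn : FreeGroup (Fin 2) → ℂ := fun g => if g.norm ≤ n then p g else 0 with hpn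
    have fin_supp : ∀ f : FreeGroup (Fin 2) → ℝ, (∀ g, n < g.norm → f g = 0) → Summable f := by
      intro f hf
      refine summable_of_hasFiniteSupport ((finite_ball n).subset ?_)
      intro g hg
      by_contra h
      exact hg (hf g (by simpa using h))
    have hpns : Summable fun g => ‖pn g‖ := by
      apply fin_supp
      intro g hg
      simp only [hpn]
      rw [if_neg (by omega)]; simp
    have hnormpn : ∀ g, (if g.norm ≤ n then ‖p g‖ else 0) = ‖pn g‖ := by
      intro g; simp only [hpn]; split_ifs <;> simp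
    simp_rw [hnormpn]
    refine (gain X Y hX hY l κ h1 h2 h3 pn hpns).trans ?_
    -- boundary function
    set r : FreeGroup (Fin 2) → ℝ := fun g => if n ≤ g.norm + 1 ∧ g.norm ≤ n then ‖p g‖ else 0
      with hr
    have hr0 : ∀ g, 0 ≤ r g := by
      intro g; simp only [hr]; split_ifs <;> simp
    have hrs : Summable r := by
      apply fin_supp
      intro g hg
      simp only [hr]
      rw [if_neg (by omega)]
    have hrsum : ∑' g, r g ≤ C + C := by
      set S := (finite_ball n).toFinset with hS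
      have e1 : ∑' g, r g = ∑ g ∈ S, r g := by
        apply tsum_eq_sum
        intro g hg
        simp only [hr]
        rw [if_neg]
        intro h
        apply hg
        rw [hS, Set.Finite.mem_toFinset]
        exact h.2
      rw [e1]
      have e2 : ∀ g ∈ S, r g ≤ (if g.norm = n then ‖p g‖ else 0) +
          (if g.norm + 1 = n then ‖p g‖ else 0) := by
        intro g _
        simp only [hr]
        have : 0 ≤ ‖p g‖ := norm_nonneg _
        by_cases c1 : g.norm = n
        · rw [if_pos c1]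
          split_ifs <;> linarith
        · by_cases c2 : g.norm + 1 = n
          · rw [if_pos c2, if_neg c1]
            split_ifs <;> linarith
          · rw [if_neg (by omega), if_neg c1, if_neg c2]; simp
      refine (Finset.sum_le_sum e2).trans ?_
      rw [Finset.sum_add_distrib, ← Finset.sum_filter, ← Finset.sum_filter]
      refine add_le_add ?_ ?_
      · exact sphere_sum X hc hc0 n _ (fun g hg => (Finset.mem_filter.1 hg).2)
      · exact sphere_sum X hc hc0 (n - 1) _ (fun g hg => by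
          have := (Finset.mem_filter.1 hg).2
          omega)
    have pw : ∀ v, ‖pn (v * (lt X)⁻¹) + l * pn (v * (lt Y)⁻¹) - (1 + l) * pn v‖ ≤
        ‖c v‖ + (r (v * (lt X)⁻¹) + ‖l‖ * r (v * (lt Y)⁻¹) + ‖1 + l‖ * r v) := by
      intro v
      have q1 : 0 ≤ r (v * (lt X)⁻¹) := hr0 _
      have q2 : 0 ≤ ‖l‖ * r (v * (lt Y)⁻¹) := mul_nonneg (norm_nonneg _) (hr0 _)
      have q3 : 0 ≤ ‖1 + l‖ * r v := mul_nonneg (norm_nonneg _) (hr0 _)
      by_cases hv : v.norm + 1 ≤ n
      · have e1 : pn (v * (lt X)⁻¹) = p (v * (lt X)⁻¹) := by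
          simp only [hpn]
          rw [if_pos ((norm_mul_lt_le v X).trans hv)]
        have e2 : pn (v * (lt Y)⁻¹) = p (v * (lt Y)⁻¹) := by
          simp only [hpn]
          rw [if_pos ((norm_mul_lt_le v Y).trans hv)]
        have e3 : pn v = p v := by
          simp only [hpn]
          rw [if_pos (by omega)]
        rw [e1, e2, e3, ← hcp v]
        linarith
      · have bd : ∀ w : FreeGroup (Fin 2), v.norm ≤ w.norm + 1 → ‖pn w‖ ≤ r w := by
          intro w hw
          simp only [hpn, hr]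
          by_cases c1 : w.norm ≤ n
          · rw [if_pos c1, if_pos ⟨by omega, c1⟩]
          · rw [if_neg c1, if_neg (by tauto)]; simp
        have b1 := bd (v * (lt X)⁻¹) (le_norm_mul_lt v X)
        have b2 := bd (v * (lt Y)⁻¹) (le_norm_mul_lt v Y)
        have b3 := bd v (by omega)
        calc ‖pn (v * (lt X)⁻¹) + l * pn (v * (lt Y)⁻¹) - (1 + l) * pn v‖
            ≤ ‖pn (v * (lt X)⁻¹)‖ + ‖l‖ * ‖pn (v * (lt Y)⁻¹)‖ + ‖1 + l‖ * ‖pn v‖ := by
              refine (norm_sub_le _ _).trans ?_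
              rw [norm_mul (1 + l)]
              gcongr
              refine (norm_add_le _ _).trans ?_
              rw [norm_mul]
          _ ≤ r (v * (lt X)⁻¹) + ‖l‖ * r (v * (lt Y)⁻¹) + ‖1 + l‖ * r v := by gcongr
          _ ≤ _ := by linarith [norm_nonneg (c v)]
    have rX : Summable fun v => r (v * (lt X)⁻¹) := summable_mulRight hrs _
    have rY : Summable fun v => r (v * (lt Y)⁻¹) := summable_mulRight hrs _
    have sR : Summable fun v => (r (v * (lt X)⁻¹) + ‖l‖ * r (v * (lt Y)⁻¹) + ‖1 + l‖ * r v) :=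
      (rX.add (rY.mul_left _)).add (hrs.mul_left _)
    have sL : Summable fun v => ‖pn (v * (lt X)⁻¹) + l * pn (v * (lt Y)⁻¹) - (1 + l) * pn v‖ :=
      Summable.of_nonneg_of_le (fun _ => norm_nonneg _) pw (hc.add sR)
    refine (sL.tsum_le_tsum pw (hc.add sR)).trans ?_
    rw [hc.tsum_add sR, (rX.add (rY.mul_left _)).tsum_add (hrs.mul_left _),
      rX.tsum_add (rY.mul_left _), tsum_mul_left, tsum_mul_left]
    have t1 : ∑' v, r (v * (lt X)⁻¹) = ∑' v, r v := tsum_mulRight r _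
    have t2 : ∑' v, r (v * (lt Y)⁻¹) = ∑' v, r v := tsum_mulRight r _
    rw [t1, t2]
    have : ∑' v, r v + ‖l‖ * ∑' v, r v + ‖1 + l‖ * ∑' v, r v =
        (1 + ‖l‖ + ‖1 + l‖) * ∑' v, r v := by ring
    rw [this]
    gcongr
  -- p is summable
  have hps : Summable fun g => ‖p g‖ := by
    refine summable_of_sum_le (c := (C + (1 + ‖l‖ + ‖1 + l‖) * (C + C)) / κ)
      (fun _ => norm_nonneg _) (fun S => ?_)
    set n := S.sup FreeGroup.norm with hn
    rw [le_div_iff₀ hκ, mul_comm]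
    refine le_trans ?_ (main n)
    gcongr
    have e : ∑ g ∈ S, ‖p g‖ = ∑ g ∈ S, (if g.norm ≤ n then ‖p g‖ else 0) := by
      refine Finset.sum_congr rfl (fun g hg => ?_)
      rw [if_pos (Finset.le_sup (f := FreeGroup.norm) hg)]
    rw [e]
    refine Summable.sum_le_tsum S (fun g _ => by split_ifs <;> simp) ?_
    refine summable_of_hasFiniteSupport ((finite_ball n).subset ?_)
    intro g hg
    by_contra h
    apply hg
    rw [Set.mem_ofPred_eq] at h
    simp only [if_neg h]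
  have hfin := tsum_conv hb hps
  rw [hb0, zero_mul] at hfin
  have : ∑' x, conv b p x = 1 := by
    simp_rw [hbp]
    exact tsum_ite_eq 1 _
  rw [this] at hfin
  exact one_ne_zero hfin

end Pool.Agent.Lib_MP_11aa79_an
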