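import Mathlib
import Pool.Agent.Lib_MP_11aa79_an.Fam
import Pool.Agent.Lib_MP_11aa79_an.Nice
import Pool.Agent.Lib_MP_11aa79_an.Invert

namespace Pool.Agent.Lib_MP_11aa79_an

open FreeGroup Filter Topology
open scoped Classical

theorem vac_none (θ : ℝ) (h : FreeGroup (Fin 2)) :
    inner ℂ e0 (pir θ h e0) = (Real.cos θ : ℂ) ^ h.norm := by
  rw [inner_e0]
  have := congrFun (vac θ h) none
  simpa [Fv] using this

theorem norm_e0 : ‖e0‖ = 1 := by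
  have h1 := inner_self_eq_norm_sq (𝕜 := ℂ) e0
  rw [e0_e0] at h1
  have h2 : ‖e0‖ ^ 2 = 1 := by rw [← h1]; simp
  nlinarith [norm_nonneg e0]

theorem Q_letter (θ : ℝ) (s : Fin 2 × Bool) : ‖Qp e0 (pir θ (lt s) e0)‖ = |Real.sin θ| := by
  have h := Qp_pyth e0 e0_e0 (pir θ (lt s) e0)
  rw [vac_none, norm_lt, pow_one, LinearIsometryEquiv.norm_map, norm_e0, Complex.norm_real,
    Real.norm_eq_abs, sq_abs] at h
  have h2 := Real.sin_sq_add_cos_sq θ
  have h3 : ‖Qp e0 (pir θ (lt s) e0)‖ ^ 2 = |Real.sin θ| ^ 2 := by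
    rw [sq_abs]; linarith
  exact (pow_left_inj₀ (norm_nonneg _) (abs_nonneg _) two_ne_zero).1 h3

theorem rep_aa_e0 (θ : ℝ) (s t : Fin 2 × Bool) (hst : s ≠ t) (l : ℂ) :
    rep (pir θ) (aa s t l) e0 = pir θ (lt s) e0 + l • pir θ (lt t) e0 - (1 + l) • e0 := by
  rw [rep_aa _ s t hst]; rfl

theorem Q_aa (θ : ℝ) (s t : Fin 2 × Bool) (hst : s ≠ t) (l : ℂ) :
    ‖Qp e0 (rep (pir θ) (aa s t l) e0)‖ ≤ (1 + ‖l‖) * |Real.sin θ| := by
  rw [rep_aa_e0 θ s t hst, map_sub, map_add, map_smul, map_smul]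
  have h0 : Qp e0 e0 = 0 := by rw [Qp_apply, e0_e0, one_smul, sub_self]
  rw [h0, smul_zero, sub_zero]
  refine (norm_add_le _ _).trans ?_
  rw [norm_smul, Q_letter, Q_letter]
  linarith

theorem inner_aa (θ : ℝ) (s t : Fin 2 × Bool) (hst : s ≠ t) (l : ℂ) :
    inner ℂ e0 (rep (pir θ) (aa s t l) e0) = (1 + l) * ((Real.cos θ : ℂ) - 1) := by
  rw [rep_aa_e0 θ s t hst, inner_sub_right, inner_add_right, inner_smul_right, inner_smul_right,
    vac_none, vac_none, norm_lt, norm_lt, e0_e0]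
  ring

theorem norm_inner_aa {θ : ℝ} (hθ : 0 ≤ Real.cos θ) (s t : Fin 2 × Bool) (hst : s ≠ t) (l : ℂ) :
    ‖(inner ℂ e0 (rep (pir θ) (aa s t l) e0) : ℂ)‖ ≤ ‖1 + l‖ * Real.sin θ ^ 2 := by
  rw [inner_aa θ s t hst, norm_mul]
  gcongr
  have h1 : ((Real.cos θ : ℂ) - 1) = ((Real.cos θ - 1 : ℝ) : ℂ) := by push_cast; ring
  rw [h1, Complex.norm_real, Real.norm_eq_abs, abs_sub_comm, abs_of_nonneg (by
    linarith [Real.cos_le_one θ])]
  nlinarith [Real.sin_sq_add_cos_sq θ, Real.cos_le_one θ]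

theorem rep_Lam_e0 {b : FreeGroup (Fin 2) → ℂ} (hb : Summable fun g => ‖b g‖)
    (hb0 : ∑' g, b g = 0) : rep (Lam (FreeGroup (Fin 2))) b e0 = 0 := by
  ext o
  cases o with
  | none => rw [rep_Lam_none hb, hb0, zero_mul]; rfl
  | some p =>
    obtain ⟨g, j⟩ := p
    rw [rep_Lam_some hb]
    unfold conv
    have : ∀ k, b k * (fun g => e0 (some (g, j))) (k⁻¹ * g) = 0 := by
      intro k
      change b k * e0 (some (k⁻¹ * g, j)) = 0
      rw [e0_some, mul_zero]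
    simp_rw [this]
    rw [tsum_zero]; rfl

theorem Q_tendsto {b : FreeGroup (Fin 2) → ℂ} (hb : Summable fun g => ‖b g‖)
    (hb0 : ∑' g, b g = 0) :
    Tendsto (fun θ => ‖Qp e0 (rep (pir θ) b e0)‖) (𝓝[>] 0) (𝓝 0) := by
  have h1 := rep_tendsto hb
  have h2 : Tendsto (fun θ => rep (pir θ) b e0) (𝓝 0) (𝓝 0) := by
    have h3 := ((ContinuousLinearMap.apply ℂ (L2 IX) e0).continuous.tendsto _).comp h1
    have h4 : (ContinuousLinearMap.apply ℂ (L2 IX) e0) (rep (Lam (FreeGroup (Fin 2))) b) = 0 :=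
      rep_Lam_e0 hb hb0
    rw [h4] at h3
    exact h3
  have h5 := (((Qp (e0)).continuous.tendsto _).comp h2).norm
  rw [map_zero, norm_zero] at h5
  exact h5.mono_left nhdsWithin_le_nhds

theorem eventually_sin : ∀ᶠ θ : ℝ in 𝓝[>] 0, 0 < Real.sin θ := by
  have : Set.Ioo (0 : ℝ) Real.pi ∈ 𝓝[>] (0 : ℝ) := Ioo_mem_nhdsGT Real.pi_pos
  filter_upwards [this] with θ hθ
  exact Real.sin_pos_of_mem_Ioo hθ

theorem eventually_cos : ∀ᶠ θ : ℝ in 𝓝[>] 0, 0 ≤ Real.cos θ := by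
  have : Set.Ioo (0 : ℝ) (Real.pi / 2) ∈ 𝓝[>] (0 : ℝ) := Ioo_mem_nhdsGT (by positivity)
  filter_upwards [this] with θ hθ
  exact Real.cos_nonneg_of_neg_pi_div_two_le_of_le (by linarith [hθ.1, Real.pi_pos]) hθ.2.le

theorem fatou {c : FreeGroup (Fin 2) → ℂ} (hc : Summable fun g => ‖c g‖)
    (h0 : ∑' g, c g = 0) {K' : ℝ}
    (hfreq : ∃ᶠ θ in 𝓝[>] 0, ‖Qp e0 (rep (pir θ) c e0)‖ ≤ K' * Real.sin θ) (j : Fin 2) :
    Summable fun g => ‖D (j, true) c g‖ ^ 2 := by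
  refine summable_of_sum_le (c := K' ^ 2) (fun _ => by positivity) (fun S => ?_)
  have hlim : Tendsto (fun θ : ℝ => ∑ g ∈ S,
      ‖(Real.sin θ : ℂ)⁻¹ * rep (pir θ) c e0 (some (g, j))‖ ^ 2) (𝓝[>] 0)
      (𝓝 (∑ g ∈ S, ‖D (j, true) c g‖ ^ 2)) := by
    refine tendsto_finsetSum _ (fun g _ => ?_)
    exact (coord_tendsto hc h0 g j).norm.pow 2
  refine le_of_tendsto_of_frequently hlim ?_
  refine (hfreq.and_eventually eventually_sin).mono ?_
  rintro θ ⟨h1, h2⟩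
  set v := rep (pir θ) c e0 with hv
  have e1 : ∀ g, ‖(Real.sin θ : ℂ)⁻¹ * v (some (g, j))‖ ^ 2 =
      (Real.sin θ)⁻¹ ^ 2 * ‖slice (Qp e0 v) j g‖ ^ 2 := by
    intro g
    rw [norm_mul, norm_inv, Complex.norm_real, Real.norm_eq_abs, abs_of_pos h2, mul_pow]
    congr 3
    rw [slice_apply, Qp_apply]
    change v (some (g, j)) = v (some (g, j)) - inner ℂ e0 v * e0 (some (g, j))
    rw [e0_some]; ring
  simp_rw [e1]
  rw [← Finset.mul_sum]
  have e2 : ∑ g ∈ S, ‖slice (Qp e0 v) j g‖ ^ 2 ≤ ‖slice (Qp e0 v) j‖ ^ 2 := by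
    rw [L2_norm_sq]
    exact (L2_summable _).sum_le_tsum S (fun _ _ => by positivity)
  have e3 : ‖slice (Qp e0 v) j‖ ^ 2 ≤ ‖Qp e0 v‖ ^ 2 := by
    rw [norm_slices (Qp e0 v)]
    have p1 : 0 ≤ ‖(Qp e0 v) none‖ ^ 2 := by positivity
    have p2 : 0 ≤ ‖slice (Qp e0 v) 0‖ ^ 2 := by positivity
    have p3 : 0 ≤ ‖slice (Qp e0 v) 1‖ ^ 2 := by positivity
    fin_cases j
    · simp only [Fin.zero_eta]; linarith
    · simp only [Fin.mk_one]; linarith
  have e4 : ‖Qp e0 v‖ ^ 2 ≤ (K' * Real.sin θ) ^ 2 := by gcongr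
  calc (Real.sin θ)⁻¹ ^ 2 * ∑ g ∈ S, ‖slice (Qp e0 v) j g‖ ^ 2
      ≤ (Real.sin θ)⁻¹ ^ 2 * (K' * Real.sin θ) ^ 2 := by
        gcongr
        exact e2.trans (e3.trans e4)
    _ = K' ^ 2 := by field_simp

theorem inj_of_lower {b : FreeGroup (Fin 2) → ℂ} (hb : Summable fun g => ‖b g‖) {m : ℝ}
    (hm : 0 < m) (h : ∀ f : L2 (FreeGroup (Fin 2)), m * ‖f‖ ≤ ‖rep (lam _) b f‖)
    (f : FreeGroup (Fin 2) → ℂ) (hf : Summable (fun g => ‖f g‖ ^ 2))
    (hz : ∀ x, conv b f x = 0) : ∀ x, f x = 0 := by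
  set F : L2 (FreeGroup (Fin 2)) := ⟨f, (memL2_iff _).2 hf⟩ with hF
  have h1 : rep (lam _) b F = 0 := by
    ext x
    rw [rep_lam_apply hb]
    exact hz x
  have h2 := h F
  rw [h1, norm_zero] at h2
  have h3 : ‖F‖ = 0 := by
    have := norm_nonneg F
    nlinarith
  have h4 : F = 0 := norm_eq_zero.1 h3
  intro x
  have := congrArg (fun G : L2 (FreeGroup (Fin 2)) => G x) h4
  exact this

theorem adj_aa (X Y : Fin 2 × Bool) (l : ℂ) (x : FreeGroup (Fin 2)) :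
    adj (aa X Y l) x = aa (op X) (op Y) ((starRingEnd ℂ) l) x := by
  unfold adj aa
  have h1 : x⁻¹ = lt X ↔ x = lt (op X) := by rw [lt_op, inv_eq_iff_eq_inv]
  have h2 : x⁻¹ = lt Y ↔ x = lt (op Y) := by rw [lt_op, inv_eq_iff_eq_inv]
  have h3 : x⁻¹ = 1 ↔ x = 1 := inv_eq_one
  simp only [h1, h2, h3]
  split_ifs <;> simp

theorem main_no (l : ℂ) (κ : ℝ) (hκ : 0 < κ) (h1 : κ + 1 ≤ ‖l‖ + ‖1 + l‖)
    (h2 : κ + ‖l‖ ≤ 1 + ‖1 + l‖) (h3 : κ + ‖1 + l‖ ≤ 1 + ‖l‖)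
    (hl : 1 + ‖l‖ ^ 2 < ‖1 + l‖ ^ 2)
    (b c : FreeGroup (Fin 2) → ℂ) (hb : Summable fun g => ‖b g‖) (hc : Summable fun g => ‖c g‖)
    (hb0 : ∑' g, b g = 0) (hc0 : ∑' g, c g = 0)
    (h : ∀ x, aa (0, true) (1, true) l x = conv b c x) : False := by
  set X : Fin 2 × Bool := (0, true) with hX
  set Y : Fin 2 × Bool := (1, true) with hY
  have hXY : X ≠ Y := by simp [hX, hY]
  have hXY' : op X ≠ op Y := by simp [hX, hY, op]
  have hfun : conv b c = aa X Y l := funext (fun x => (h x).symm)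
  obtain ⟨m, hm, hB, hC⟩ := lower_bounds (summable_aa X Y l) hb hc hfun
    (isUnit_rep X Y rfl rfl l hl)
  have hb' := summable_adj hb
  have hc' := summable_adj hc
  have hb0' : ∑' g, adj b g = 0 := by rw [tsum_adj, hb0, map_zero]
  have hc0' : ∑' g, adj c g = 0 := by rw [tsum_adj, hc0, map_zero]
  have hfun' : conv (adj c) (adj b) = aa (op X) (op Y) ((starRingEnd ℂ) l) := by
    funext x
    rw [← adj_conv, hfun, adj_aa]
  set K : ℝ := 1 + ‖l‖ + ‖1 + l‖ with hK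
  have hK0 : 0 ≤ K := by positivity
  -- eventual closeness
  have close : ∀ d : FreeGroup (Fin 2) → ℂ, (Summable fun g => ‖d g‖) →
      ∀ᶠ θ in 𝓝[>] (0 : ℝ), ‖rep (pir θ) d - rep (Lam (FreeGroup (Fin 2))) d‖ ≤ m / 2 := by
    intro d hd
    have h1 := (tendsto_iff_norm_sub_tendsto_zero.1 (rep_tendsto hd)).mono_left
      (nhdsWithin_le_nhds (s := Set.Ioi (0 : ℝ)))
    exact (h1.eventually_lt_const (by positivity : (0 : ℝ) < m / 2)).mono (fun _ h => h.le)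
  -- conditions on limits
  have lowcond : ∀ d : FreeGroup (Fin 2) → ℂ, (Summable fun g => ‖d g‖) →
      (∀ f : L2 (FreeGroup (Fin 2)), m * ‖f‖ ≤ ‖rep (lam (FreeGroup (Fin 2))) d f‖) →
      ∀ v : L2 IX, inner ℂ e0 v = (0 : ℂ) →
        m * ‖v‖ ≤ ‖rep (Lam (FreeGroup (Fin 2))) d v‖ := by
    intro d hd hlow v hv
    rw [inner_e0] at hv
    exact Lam_lower hd hm.le hlow v hv
  have ortcond : ∀ d : FreeGroup (Fin 2) → ℂ, (Summable fun g => ‖d g‖) →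
      ∀ v : L2 IX, inner ℂ e0 v = (0 : ℂ) →
        inner ℂ e0 (rep (Lam (FreeGroup (Fin 2))) d v) = (0 : ℂ) := by
    intro d hd v hv
    rw [inner_e0] at hv ⊢
    rw [rep_Lam_none hd, hv, mul_zero]
  have dich := dichotomy (F := 𝓝[>] (0 : ℝ)) (m := m / 2) (K := K) (by positivity) hK0
    (τ := fun θ => Real.sin θ)
    (f := fun θ => ‖Qp e0 (rep (pir θ) c e0)‖)
    (g := fun θ => ‖Qp e0 (rep (pir θ) (adj b) e0)‖)
    (u := fun θ => ‖(inner ℂ e0 (rep (pir θ) c e0) : ℂ)‖)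
    (v := fun θ => ‖(inner ℂ e0 (rep (pir θ) (adj b) e0) : ℂ)‖)
    (β := fun θ => ‖Qp e0 (rep (pir θ) b e0)‖)
    (γ := fun θ => ‖Qp e0 (rep (pir θ) (adj c) e0)‖)
    eventually_sin (fun _ => norm_nonneg _) (fun _ => norm_nonneg _) (fun _ => norm_nonneg _)
    (fun _ => norm_nonneg _) (fun _ => norm_nonneg _) (fun _ => norm_nonneg _)
    (Q_tendsto hb hb0) (Q_tendsto hc' hc0') ?_ ?_ ?_
  · rcases dich with ⟨K', hK'⟩ | ⟨K', hK'⟩
    · exact nice X Y rfl rfl l κ hκ h1 h2 h3 b c hb hc hb0 hc0 h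
        (inj_of_lower hb hm hB) (fatou hc hc0 hK' 0) (fatou hc hc0 hK' 1)
    · have hfreq := hK'.frequently
      have n1 : ‖(starRingEnd ℂ) l‖ = ‖l‖ := RCLike.norm_conj l
      have n2 : ‖1 + (starRingEnd ℂ) l‖ = ‖1 + l‖ := by
        rw [← RCLike.norm_conj (1 + l)]
        simp
      have conv_sum : ∀ j : Fin 2, Summable fun g => ‖D (op (j, true)) (adj b) g‖ ^ 2 := by
        intro j
        have s := fatou hb' hb0' hfreq j
        have s2 := summable_mulRight s (lt (j, true))⁻¹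
        refine s2.congr (fun g => ?_)
        rw [D_mul_inv _ hb' hb0', norm_neg]
      refine nice (op X) (op Y) rfl rfl ((starRingEnd ℂ) l) κ hκ ?_ ?_ ?_ (adj c) (adj b) hc' hb'
        hc0' hb0' (fun x => by rw [hfun']) (inj_of_lower hc' hm hC) (conv_sum 0) (conv_sum 1)
      · rw [n1, n2]; exact h1
      · rw [n1, n2]; exact h2
      · rw [n1, n2]; exact h3
  · filter_upwards [close b hb, eventually_sin] with θ t1 t2
    have e1 := ineq1 e0 e0_e0 (rep (pir θ) b) (rep (Lam (FreeGroup (Fin 2))) b)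
      (lowcond b hb hB) (fun v hv => ortcond b hb v hv) t1 (rep (pir θ) c e0)
    have e2 : rep (pir θ) b (rep (pir θ) c e0) = rep (pir θ) (aa X Y l) e0 := by
      rw [← hfun, rep_conv (pir θ) hb hc]; rfl
    rw [e2] at e1
    have e3 := Q_aa θ X Y hXY l
    rw [abs_of_pos t2] at e3
    have e4 : (1 + ‖l‖) * Real.sin θ ≤ K * Real.sin θ := by
      gcongr
      rw [hK]; linarith [norm_nonneg (1 + l)]
    linarith
  · filter_upwards [close (adj c) hc', eventually_sin] with θ t1 t2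
    have e1 := ineq1 e0 e0_e0 (rep (pir θ) (adj c)) (rep (Lam (FreeGroup (Fin 2))) (adj c))
      (lowcond (adj c) hc' hC) (fun v hv => ortcond (adj c) hc' v hv) t1 (rep (pir θ) (adj b) e0)
    have e2 : rep (pir θ) (adj c) (rep (pir θ) (adj b) e0) =
        rep (pir θ) (aa (op X) (op Y) ((starRingEnd ℂ) l)) e0 := by
      rw [← hfun', rep_conv (pir θ) hc' hb']; rfl
    rw [e2] at e1
    have e3 := Q_aa θ (op X) (op Y) hXY' ((starRingEnd ℂ) l)
    rw [abs_of_pos t2, RCLike.norm_conj] at e3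
    have e4 : (1 + ‖l‖) * Real.sin θ ≤ K * Real.sin θ := by
      gcongr
      rw [hK]; linarith [norm_nonneg (1 + l)]
    linarith
  · filter_upwards [eventually_sin, eventually_cos] with θ t1 t2
    have e1 := ineq2 e0 e0_e0 (rep (pir θ) (adj b) e0) (rep (pir θ) c e0)
    have e2 : inner ℂ (rep (pir θ) (adj b) e0) (rep (pir θ) c e0) =
        inner ℂ e0 (rep (pir θ) (aa X Y l) e0) := by
      rw [inner_rep_left (pir θ) hb', adj_adj, ← hfun, rep_conv (pir θ) hb hc]; rfl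
    rw [e2] at e1
    have e3 := norm_inner_aa t2 X Y hXY l
    have e4 : ‖1 + l‖ * Real.sin θ ^ 2 ≤ K * Real.sin θ ^ 2 := by
      gcongr
      rw [hK]; linarith [norm_nonneg l]
    linarith

end Pool.Agent.Lib_MP_11aa79_an
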