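import Mathlib
import Pool.Agent.Lib_MP_11aa79_an.Final

namespace Pool.Agent.Lib_MP_11aa79_an.NotFactor

open Pool.Agent.Lib_MP_11aa79_an

/-- The augmentation ideal of the convolution algebra of absolutely summable functions on the free
group on two generators does not factor: there is a function supported on three points, of sum
zero, which is not the convolution of two absolutely summable functions of sum zero. -/
theorem result :
    ∃ a : FreeGroup (Fin 2) → ℂ,
      (∀ g, a g ≠ 0 → g = 1 ∨ g = FreeGroup.of 0 ∨ g = FreeGroup.of 1) ∧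
      Summable (fun g => ‖a g‖) ∧ ∑' g, a g = 0 ∧
      ∀ b c : FreeGroup (Fin 2) → ℂ,
        Summable (fun g => ‖b g‖) → ∑' g, b g = 0 →
        Summable (fun g => ‖c g‖) → ∑' g, c g = 0 →
        ¬ ∀ x, a x = ∑' g, b g * c (g⁻¹ * x) := by
  refine ⟨aa (0, true) (1, true) (1 + Complex.I), ?_, summable_aa _ _ _,
    tsum_aa_zero _ _ (by simp) _, ?_⟩
  · intro g hg
    by_contra hne
    push Not at hne
    apply hg
    unfold aa
    rw [lt_true, lt_true, if_neg hne.2.1, if_neg hne.2.2, if_neg hne.1]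
  · intro b c hb hb0 hc hc0 h
    have n1 : ‖(1 + Complex.I : ℂ)‖ ^ 2 = 2 := by
      rw [Complex.sq_norm, Complex.normSq_apply]
      simp
      norm_num
    have n2 : ‖(1 + (1 + Complex.I) : ℂ)‖ ^ 2 = 5 := by
      rw [Complex.sq_norm, Complex.normSq_apply]
      simp
      norm_num
    have p1 : 0 ≤ ‖(1 + Complex.I : ℂ)‖ := norm_nonneg _
    have p2 : 0 ≤ ‖(1 + (1 + Complex.I) : ℂ)‖ := norm_nonneg _
    have q1 : 14 / 10 ≤ ‖(1 + Complex.I : ℂ)‖ := by nlinarith
    have q2 : ‖(1 + Complex.I : ℂ)‖ ≤ 15 / 10 := by nlinarith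
    have q3 : 22 / 10 ≤ ‖(1 + (1 + Complex.I) : ℂ)‖ := by nlinarith
    have q4 : ‖(1 + (1 + Complex.I) : ℂ)‖ ≤ 225 / 100 := by nlinarith
    refine main_no (1 + Complex.I) (1 / 10) (by norm_num) ?_ ?_ ?_ ?_ b c hb hc hb0 hc0 h
    · linarith
    · linarith
    · linarith
    · rw [n1, n2]; norm_num

end Pool.Agent.Lib_MP_11aa79_an.NotFactor
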